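import Pool.Agent.Lib.MP_edb5be_nt.TS.H67.Levels

/-!
Project TS, second stage, module NORMALS: equidistribution modulo `2 ^ l` along almost all
trajectories, with deviations of the order of the square root of the logarithm.
-/

set_option autoImplicit false

namespace Pool.Agent.Lib.MP_edb5be_nt.TS.H67

open Finset Filter Topology Pool.Agent.Lib.MP_0a5adf_nt Pool.Agent.Lib.MP_0a5adf_nt.TP
  Pool.Agent.Lib.MP_edb5be_nt.ND Pool.Agent.Lib.MP_edb5be_nt.TS

/-- the number of steps until the trajectory falls below `G` is at most linear in the level -/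
theorem time_le (d : Bool) : ∃ a₁ : ℕ, ∀ (n L : ℕ) (G : ℝ), n ≠ 0 → a₁ ≤ L → (2 : ℝ) ^ L ≤ G →
      (∀ b : ℕ, L ≤ b → b ≤ Nat.log 2 n + 1 → n ∉ HB d b (H62.E d (3 / 4) b)) →
      ∀ b i : ℕ, b ≤ Nat.log 2 n + 1 → (T d)^[i] n < 2 ^ b → (∀ j < i, 2 ^ b ≤ (T d)^[j] n) →
      ∀ k : ℕ, i ≤ k → (∀ j < k, G ≤ (((T d)^[j] n : ℕ) : ℝ)) → k ≤ i + 20 * b := by
  obtain ⟨a₂, ha₂⟩ := descend d
  refine ⟨max a₂ 400, fun n L G hn hL hG hgood b => ?_⟩
  induction b using Nat.strong_induction_on with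
  | _ b ih =>
    intro i hb hi hj k hik hk
    rcases Nat.eq_or_lt_of_le hik with hik' | hik'
    · omega
    have hLb : L < b := by
      have h1 : (2 : ℝ) ^ L < 2 ^ b :=
        lt_of_le_of_lt (hG.trans (hk i hik')) (by exact_mod_cast hi)
      exact (pow_lt_pow_iff_right₀ (by norm_num)).1 h1
    have hb2 : a₂ ≤ b := by
      have := le_max_left a₂ 400
      omega
    have hb4 : 400 ≤ b := by
      have := le_max_right a₂ 400
      omega
    have hE1 : (T d)^[i] n ∉ H62.E d (3 / 4) b := fun h => hgood b hLb.le hb ⟨i, hi, hj, h⟩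
    by_cases hs : k - i ≤ b / 20
    · omega
    · push Not at hs
      have hlow := ha₂ n b i hb2 hn hb hi hj hE1
      classical
      have hex : ∃ s : ℕ, (T d)^[i + s] n < 2 ^ (b - b / 200) := ⟨_, hlow⟩
      set s₁ := Nat.find hex with hs₁
      have h1 : (T d)^[i + s₁] n < 2 ^ (b - b / 200) := Nat.find_spec hex
      have h2 : s₁ ≤ b / 20 := Nat.find_min' hex hlow
      have h3 : ∀ s < s₁, 2 ^ (b - b / 200) ≤ (T d)^[i + s] n := fun s hs =>
        not_lt.1 (Nat.find_min hex hs)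
      have h4 := ih (b - b / 200) (by omega) (i + s₁) (by omega) h1 (by
        intro j hj'
        rcases Nat.lt_or_ge j i with h5 | h5
        · exact (Nat.pow_le_pow_right (by norm_num) (by omega)).trans (hj j h5)
        · obtain ⟨s, rfl⟩ := Nat.exists_eq_add_of_le h5
          exact h3 s (by omega)) k (by omega) hk
      omega

theorem keyS (d : Bool) (l a : ℕ) (hl : 1 ≤ l) :
    ∃ a₁ : ℕ, ∀ (n L : ℕ) (G X : ℝ), a₁ ≤ Nat.log 2 n → a₁ ≤ L → (2 : ℝ) ^ L ≤ G →
      √(Nat.log 2 n : ℝ) ≤ X →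
      (∀ b : ℕ, L ≤ b → b ≤ Nat.log 2 n + 1 → n ∉ HB d b (H62.E d (3 / 4) b)) →
      (∀ j : ℕ, √(Nat.log 2 n : ℝ) ≤ lev (Nat.log 2 n) j →
        n ∉ HB d (lev (Nat.log 2 n) j) (E2 d l a (X * rho ^ j) (lev (Nat.log 2 n) j))) →
      ∀ b j : ℕ, lev (Nat.log 2 n) j = b →
      ∀ i : ℕ, (T d)^[i] n < 2 ^ b → (∀ j < i, 2 ^ b ≤ (T d)^[j] n) →
      ∀ k : ℕ, i ≤ k → (∀ j < k, G ≤ (((T d)^[j] n : ℕ) : ℝ)) →
      |∑ j ∈ Ico i k, ff l a ((T d)^[j] n)| ≤
        1000 * ((l + 1) * (X * rho ^ j)) + 20 * √(Nat.log 2 n : ℝ) := by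
  obtain ⟨a₂, ha₂⟩ := descend d
  obtain ⟨a₃, ha₃⟩ := time_le d
  refine ⟨max (max a₂ a₃) (200000 * l ^ 4 + 200000),
    fun n L G X hna hL hG hX hgood hgood' b => ?_⟩
  set u := Nat.log 2 n with hu
  have hub : 200000 * l ^ 4 + 200000 ≤ u := (le_max_right _ _).trans hna
  have hLa2 : a₂ ≤ L := (le_max_left a₂ a₃).trans ((le_max_left _ _).trans hL)
  have hLa3 : a₃ ≤ L := (le_max_right a₂ a₃).trans ((le_max_left _ _).trans hL)
  have hn : n ≠ 0 := by
    rintro rfl
    simp at hu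
    omega
  have hu0 : (200000 : ℝ) * l ^ 4 + 200000 ≤ u := by exact_mod_cast hub
  have hs0 : 0 ≤ √(u : ℝ) := Real.sqrt_nonneg _
  have hsu : √(u : ℝ) ^ 2 = u := Real.sq_sqrt (Nat.cast_nonneg _)
  have hl1 : (1 : ℝ) ≤ l := by exact_mod_cast hl
  have hl4 : (0 : ℝ) ≤ (l : ℝ) ^ 4 := by positivity
  have hs1 : 400 ≤ √(u : ℝ) := Real.le_sqrt_of_sq_le (by nlinarith)
  have hs2 : 8 * (l : ℝ) ^ 2 ≤ √(u : ℝ) := Real.le_sqrt_of_sq_le (by nlinarith)
  have hs3 : 20 * (l : ℝ) ≤ √(u : ℝ) := by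
    rcases le_or_gt (20 : ℝ) (8 * l) with h | h
    · nlinarith
    · linarith
  have hX0 : 0 ≤ X := hs0.trans hX
  have hrho := rho_pos
  induction b using Nat.strong_induction_on with
  | _ b ih =>
    intro j hjb i hi hj k hik hk
    rcases Nat.eq_or_lt_of_le hik with hik' | hik'
    · subst hik'
      rw [Ico_self, sum_empty, abs_zero]
      positivity
    have hbu : b ≤ u + 1 := by
      rw [← hjb]
      exact lev_le_self u j
    have hLb : L < b := by
      have h1 : (2 : ℝ) ^ L < 2 ^ b :=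
        lt_of_le_of_lt (hG.trans (hk i hik')) (by exact_mod_cast hi)
      exact (pow_lt_pow_iff_right₀ (by norm_num)).1 h1
    rcases lt_or_ge (b : ℝ) √(u : ℝ) with hbs | hbs
    · -- low levels
      have h1 := ha₃ n L G hn hLa3 hG hgood b i hbu hi hj k hik hk
      have h2 := abs_sum_ff d l a n i k hik
      have h3 : (k : ℝ) ≤ i + 20 * b := by exact_mod_cast h1
      have h4 : 0 ≤ 1000 * (((l : ℝ) + 1) * (X * rho ^ j)) := by positivity
      linarith
    · have hb400 : 400 ≤ b := by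
        have : (400 : ℝ) ≤ b := by linarith
        exact_mod_cast this
      have hb0 : (0 : ℝ) < b := by linarith
      have hb20 : 20 * l ≤ b := by
        have : (20 : ℝ) * l ≤ b := by linarith
        exact_mod_cast this
      -- the threshold is large
      have hx : 2 * (l : ℝ) ≤ X * rho ^ j := by
        have h1 := lev_le_pow u j (by rw [hjb]; exact hb400)
        rw [hjb] at h1
        have h2 := rho_sq j
        have h3 : (399 / 400 : ℝ) ^ j ≤ (rho ^ j) ^ 2 := by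
          refine le_trans ?_ h2
          have h4 : (0 : ℝ) ≤ (399 / 400 : ℝ) ^ j := by positivity
          have h5 : (0 : ℝ) ≤ (j : ℝ) / 2000 := by positivity
          nlinarith
        have h4 : √(u : ℝ) ≤ (rho ^ j) ^ 2 * (2 * √(u : ℝ) ^ 2) := by
          calc √(u : ℝ) ≤ b := hbs
            _ ≤ (399 / 400 : ℝ) ^ j * (u + 1) := h1
            _ ≤ (rho ^ j) ^ 2 * (2 * √(u : ℝ) ^ 2) := by
                rw [hsu]
                refine mul_le_mul h3 (by linarith) (by positivity) (by positivity)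
        have h5 : (2 * (l : ℝ)) ^ 2 ≤ (√(u : ℝ) * rho ^ j) ^ 2 := by
          have h6 : √(u : ℝ) / 2 ≤ (√(u : ℝ) * rho ^ j) ^ 2 := by
            rw [mul_pow]
            linarith
          nlinarith
        have h6 : 2 * (l : ℝ) ≤ √(u : ℝ) * rho ^ j :=
          (pow_le_pow_iff_left₀ (by positivity) (by positivity) (by norm_num)).1 h5
        exact h6.trans (mul_le_mul_of_nonneg_right hX (by positivity))
      have hE1 : (T d)^[i] n ∉ H62.E d (3 / 4) b := fun h => hgood b hLb.le hbu ⟨i, hi, hj, h⟩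
      have hE2 : (T d)^[i] n ∉ E d l a (X * rho ^ j / b) b := by
        intro h
        have h1 : √(u : ℝ) ≤ lev u j := by rw [hjb]; exact hbs
        refine hgood' j h1 ?_
        rw [hjb]
        refine ⟨i, hi, hj, ?_⟩
        obtain ⟨c, hc, q, hq, h2⟩ := h
        rw [div_mul_cancel₀ _ hb0.ne'] at h2
        exact ⟨c, hc, q, hq, h2⟩
      have hw : ∀ s : ℕ, s ≤ b / 20 → |∑ j ∈ Ico i (i + s), ff l a ((T d)^[j] n)| ≤
          (l + 1) * (X * rho ^ j) := by
        intro s hs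
        have h1 := window d l a hl (X * rho ^ j / b) b ((T d)^[i] n) hb20
          (by rw [div_mul_cancel₀ _ hb0.ne']; exact hx) hE2 s hs
        rw [div_mul_cancel₀ _ hb0.ne'] at h1
        rw [sum_Ico_eq_sum_range, Nat.add_sub_cancel_left]
        refine le_trans (le_of_eq ?_) h1
        congr 1
        refine sum_congr rfl fun j _ => ?_
        rw [← Function.iterate_add_apply, add_comm j i]
      have hpos : 0 ≤ ((l : ℝ) + 1) * (X * rho ^ j) := by positivity
      by_cases hs : k - i ≤ b / 20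
      · have h1 := hw (k - i) hs
        rw [Nat.add_sub_cancel' hik] at h1
        linarith
      · push Not at hs
        have hlow := ha₂ n b i (by omega) hn hbu hi hj hE1
        classical
        have hex : ∃ s : ℕ, (T d)^[i + s] n < 2 ^ (b - b / 200) := ⟨_, hlow⟩
        set s₁ := Nat.find hex with hs₁
        have h1 : (T d)^[i + s₁] n < 2 ^ (b - b / 200) := Nat.find_spec hex
        have h2 : s₁ ≤ b / 20 := Nat.find_min' hex hlow
        have h3 : ∀ s < s₁, 2 ^ (b - b / 200) ≤ (T d)^[i + s] n := fun s hs =>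
          not_lt.1 (Nat.find_min hex hs)
        have h4 := ih (b - b / 200) (by omega) (j + 1) (by rw [lev, hjb]) (i + s₁) h1 (by
          intro j hj'
          rcases Nat.lt_or_ge j i with h5 | h5
          · exact (Nat.pow_le_pow_right (by norm_num) (by omega)).trans (hj j h5)
          · obtain ⟨s, rfl⟩ := Nat.exists_eq_add_of_le h5
            exact h3 s (by omega)) k (by omega) hk
        have h5 := hw s₁ h2
        rw [← sum_Ico_consecutive _ (Nat.le_add_right i s₁) (by omega : i + s₁ ≤ k)]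
        have h6 := abs_add_le (∑ j ∈ Ico i (i + s₁), ff l a ((T d)^[j] n))
          (∑ j ∈ Ico (i + s₁) k, ff l a ((T d)^[j] n))
        have h7 : ((l : ℝ) + 1) * (X * rho ^ (j + 1)) =
            999 / 1000 * (((l : ℝ) + 1) * (X * rho ^ j)) := by
          rw [pow_succ, show rho ^ j * rho = rho ^ j * (999 / 1000) by rfl]
          ring
        rw [h7] at h4
        linarith

theorem sqrt_log_le (n : ℕ) (hn : 1 ≤ n) : √(Nat.log 2 n : ℝ) ≤ 1.21 * √(Real.log n) := by
  have hl2 : (0.693 : ℝ) < Real.log 2 := by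
    have := Real.log_two_gt_d9
    linarith
  have h6 : ((2 ^ Nat.log 2 n : ℕ) : ℝ) ≤ n := by
    exact_mod_cast Nat.pow_log_le_self 2 (by omega)
  have h7 := Real.log_le_log (by positivity) h6
  rw [Nat.cast_pow, Real.log_pow] at h7
  push_cast at h7
  have h8 : (Nat.log 2 n : ℝ) ≤ 1.21 ^ 2 * Real.log n := by
    nlinarith [(Nat.cast_nonneg (Nat.log 2 n) : (0 : ℝ) ≤ (Nat.log 2 n : ℝ))]
  calc √(Nat.log 2 n : ℝ) ≤ √(1.21 ^ 2 * Real.log n) := Real.sqrt_le_sqrt h8
    _ = 1.21 * √(Real.log n) := by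
        rw [Real.sqrt_mul (by norm_num), Real.sqrt_sq (by norm_num)]

theorem normalS (hBC : BCStatement) (hBCS : BCSStatement) : NormalSStatement := by
  obtain ⟨a₀, hBC⟩ := hBC
  intro d g ψ hg hψ l a
  have hl : Tendsto (fun n => Nat.log 2 ⌊g n⌋₊) atTop atTop :=
    H62.tendsto_natLog.comp (tendsto_nat_floor_atTop.comp hg)
  obtain ⟨C, hC⟩ := H62.E_bc d (3 / 4) (by norm_num)
  have hdens := hBC d (H62.E d (3 / 4)) C (fun a _ => hC a) _ hl
  rcases Nat.eq_zero_or_pos l with hl0 | hl0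
  · subst hl0
    obtain ⟨n₀, hn₀⟩ := eventually_atTop.1 (hψ.eventually_ge_atTop 0)
    refine H62.hasDensN_one_of hdens n₀ fun n hn _ => ?_
    intro k _
    have h1 : ((range k).filter fun j => (T d)^[j] n ≡ a [MOD 2 ^ 0]) = range k :=
      filter_true_of_mem fun j _ => by rw [pow_zero]; exact Nat.modEq_one
    rw [h1, card_range, pow_zero, div_one, sub_self, abs_zero]
    exact mul_nonneg (hn₀ n hn) (Real.sqrt_nonneg _)
  · have hl1 : (0 : ℝ) < 2000 * ((l : ℝ) + 1) := by positivity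
    have hψ' : Tendsto (fun n => ψ n / (2000 * ((l : ℝ) + 1))) atTop atTop :=
      hψ.atTop_div_const hl1
    have hdens' := levels_dens hBCS d (by positivity) (by norm_num) (E2_cls d l a hl0)
      (fun n => ψ n / (2000 * ((l : ℝ) + 1))) hψ'
    obtain ⟨a₁, hkey⟩ := keyS d l a hl0
    obtain ⟨n₀, hn₀⟩ := eventually_atTop.1 ((eventually_ge_atTop 1).and
      ((hl.eventually_ge_atTop a₁).and ((hg.eventually_ge_atTop 1).and
        ((hψ.eventually_ge_atTop 62).and ((hψ'.eventually_ge_atTop 1).and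
          (H62.tendsto_natLog.eventually_ge_atTop a₁))))))
    refine H62.hasDensN_one_of (hasDensN_inter hdens hdens') n₀ fun n hn hgood => ?_
    obtain ⟨h1, h2, h3, h4, h5, h6⟩ := hn₀ n hn
    intro k hk
    have hG : (2 : ℝ) ^ (Nat.log 2 ⌊g n⌋₊) ≤ g n := by
      have h5 : ⌊g n⌋₊ ≠ 0 := by
        have := (Nat.one_le_floor_iff _).2 h3
        omega
      have h6 : ((2 ^ Nat.log 2 ⌊g n⌋₊ : ℕ) : ℝ) ≤ (⌊g n⌋₊ : ℝ) := by
        exact_mod_cast Nat.pow_log_le_self 2 h5
      rw [Nat.cast_pow] at h6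
      exact h6.trans (Nat.floor_le (by linarith))
    have hs0 : 0 ≤ √(Nat.log 2 n : ℝ) := Real.sqrt_nonneg _
    have hX : √(Nat.log 2 n : ℝ) ≤ ψ n / (2000 * ((l : ℝ) + 1)) * √(Nat.log 2 n : ℝ) := by
      nlinarith
    have h7 := hkey n _ (g n) (ψ n / (2000 * ((l : ℝ) + 1)) * √(Nat.log 2 n : ℝ)) h6 h2 hG hX
      hgood.1 hgood.2 (Nat.log 2 n + 1) 0 rfl 0
      (Nat.lt_pow_succ_log_self (by norm_num) n) (by omega) k (Nat.zero_le _) hk
    rw [dev_eq]
    refine h7.trans ?_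
    have h8 := sqrt_log_le n h1
    have h9 : 1000 * (((l : ℝ) + 1) * (ψ n / (2000 * ((l : ℝ) + 1)) * √(Nat.log 2 n : ℝ) *
        rho ^ 0)) = ψ n / 2 * √(Nat.log 2 n : ℝ) := by
      rw [pow_zero]
      field_simp
      ring
    rw [h9]
    have hl0' : 0 ≤ √(Real.log n) := Real.sqrt_nonneg _
    calc ψ n / 2 * √(Nat.log 2 n : ℝ) + 20 * √(Nat.log 2 n : ℝ)
        = (ψ n / 2 + 20) * √(Nat.log 2 n : ℝ) := by ring
      _ ≤ (ψ n / 2 + 20) * (1.21 * √(Real.log n)) := mul_le_mul_of_nonneg_left h8 (by linarith)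
      _ = ((ψ n / 2 + 20) * 1.21) * √(Real.log n) := by ring
      _ ≤ ψ n * √(Real.log n) := mul_le_mul_of_nonneg_right (by linarith) hl0'

end Pool.Agent.Lib.MP_edb5be_nt.TS.H67
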