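import Pool.Agent.Lib.MP_edb5be_nt.TS.H62.Line

/-!
Project TS, module NORMAL: almost all trajectories are equidistributed modulo `2 ^ l`.
-/

set_option autoImplicit false

namespace Pool.Agent.Lib.MP_edb5be_nt.TS.H67

open Finset Filter Topology Pool.Agent.Lib.MP_0a5adf_nt Pool.Agent.Lib.MP_0a5adf_nt.TP
  Pool.Agent.Lib.MP_edb5be_nt.ND Pool.Agent.Lib.MP_edb5be_nt.TS

/-! ### Independence -/

theorem par_congr (d : Bool) {K n m : ℕ} (h : m ≡ n [MOD 2 ^ K]) : par d m K = par d n K := by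
  unfold par
  refine filter_congr fun x hx => ?_
  have hx' := mem_Icc.1 hx
  have h1 : (2 : ℤ) ^ K ∣ (n : ℤ) - m := by
    have := (Nat.modEq_iff_dvd).1 h
    exact_mod_cast this
  have h2 : (2 : ℤ) ^ (K - x + 1) ∣ (n : ℤ) - m := (pow_dvd_pow 2 (by omega)).trans h1
  have h3 := H62.iter_dvd d (K - x) h2
  rw [pow_one] at h3
  omega

theorem iter_congr (d : Bool) {K l n m : ℕ} (h : m ≡ n [MOD 2 ^ (K + l)]) :
    (T d)^[K] m ≡ (T d)^[K] n [MOD 2 ^ l] := by
  have h1 : (2 : ℤ) ^ (K + l) ∣ (n : ℤ) - m := by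
    have := (Nat.modEq_iff_dvd).1 h
    exact_mod_cast this
  have h3 := H62.iter_dvd d K h1
  exact (Nat.modEq_iff_dvd).2 (by exact_mod_cast h3)

theorem inj (d : Bool) (K l : ℕ) {m n : ℕ} (h : m ≡ n [MOD 2 ^ K])
    (h' : (T d)^[K] m ≡ (T d)^[K] n [MOD 2 ^ l]) : m ≡ n [MOD 2 ^ (K + l)] := by
  have hp := par_congr d h
  obtain ⟨-, -, h1⟩ := H30.dyn.1 d m K
  obtain ⟨-, -, h2⟩ := H30.dyn.1 d n K
  rw [hp] at h1
  have h3 : (2 : ℤ) ^ l ∣ (((T d)^[K] n : ℕ) : ℤ) - (((T d)^[K] m : ℕ) : ℤ) := by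
    have := (Nat.modEq_iff_dvd).1 h'
    exact_mod_cast this
  obtain ⟨c, hc⟩ := h3
  have h4 : (2 : ℤ) ^ (K + l) ∣ 3 ^ (par d n K).card * ((n : ℤ) - m) := ⟨c, by
    rw [pow_add]
    linear_combination h1 - h2 + 2 ^ K * hc⟩
  have h5 : (2 : ℤ) ^ (K + l) ∣ (n : ℤ) - m := by
    refine IsCoprime.dvd_of_dvd_mul_left ?_ h4
    exact (show IsCoprime (2 : ℤ) 3 by norm_num).pow
  exact (Nat.modEq_iff_dvd).2 (by exact_mod_cast h5)

theorem sum_indep (d : Bool) (K l : ℕ) (F G : ℕ → ℝ)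
    (hF : ∀ m n, m ≡ n [MOD 2 ^ K] → F m = F n) (hG : ∀ m n, m ≡ n [MOD 2 ^ l] → G m = G n) :
    ∑ r ∈ range (2 ^ (K + l)), F r * G ((T d)^[K] r) =
      (∑ r ∈ range (2 ^ K), F r) * ∑ b ∈ range (2 ^ l), G b := by
  rw [sum_mul_sum, ← sum_product']
  have hmaps : Set.MapsTo (fun r : ℕ => (r % 2 ^ K, (T d)^[K] r % 2 ^ l))
      (range (2 ^ (K + l)) : Finset ℕ) (range (2 ^ K) ×ˢ range (2 ^ l) : Finset (ℕ × ℕ)) := by
    intro r _
    rw [mem_coe, mem_product, mem_range, mem_range]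
    exact ⟨Nat.mod_lt _ (by positivity), Nat.mod_lt _ (by positivity)⟩
  have hinj : Set.InjOn (fun r : ℕ => (r % 2 ^ K, (T d)^[K] r % 2 ^ l))
      (range (2 ^ (K + l)) : Finset ℕ) := by
    intro r hr r' hr' h
    rw [mem_coe, mem_range] at hr hr'
    simp only [Prod.mk.injEq] at h
    have h1 := inj d K l (m := r) (n := r') h.1 h.2
    exact Nat.ModEq.eq_of_lt_of_lt h1 hr hr'
  have hsurj := surjOn_of_injOn_of_card_le _ hmaps hinj (by
    rw [card_product, card_range, card_range, card_range, pow_add])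
  refine sum_nbij (fun r : ℕ => (r % 2 ^ K, (T d)^[K] r % 2 ^ l)) hmaps hinj hsurj ?_
  intro r _
  simp only
  rw [hF r (r % 2 ^ K) (Nat.mod_modEq _ _).symm, hG _ _ (Nat.mod_modEq ((T d)^[K] r) (2 ^ l)).symm]

theorem sum_mod (d : Bool) {K k : ℕ} (hk : K ≤ k) (F : ℕ → ℝ)
    (hF : ∀ m n, m ≡ n [MOD 2 ^ K] → F m = F n) :
    ∑ r ∈ range (2 ^ k), F r = (∑ r ∈ range (2 ^ K), F r) * 2 ^ (k - K) := by
  have h := sum_indep d K (k - K) F (fun _ => 1) hF (fun _ _ _ => rfl)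
  rw [Nat.add_sub_cancel' hk] at h
  simpa using h

/-! ### The exponential moment -/

/-- the centered indicator -/
noncomputable def ff (l a m : ℕ) : ℝ := (if m ≡ a [MOD 2 ^ l] then 1 else 0) - 1 / 2 ^ l

theorem ff_congr (l a : ℕ) {m n : ℕ} (h : m ≡ n [MOD 2 ^ l]) : ff l a m = ff l a n := by
  unfold ff
  have : (m ≡ a [MOD 2 ^ l]) ↔ (n ≡ a [MOD 2 ^ l]) := ⟨fun h' => h.symm.trans h', fun h' => h.trans h'⟩
  simp only [this]

theorem abs_ff (l a m : ℕ) : |ff l a m| ≤ 1 := by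
  unfold ff
  have h1 : (1 : ℝ) / 2 ^ l ≤ 1 := by
    rw [div_le_one (by positivity)]
    exact one_le_pow₀ (by norm_num)
  have h2 : (0 : ℝ) ≤ 1 / 2 ^ l := by positivity
  rw [abs_le]
  split_ifs <;> constructor <;> linarith

theorem sum_ff (l a : ℕ) : ∑ b ∈ range (2 ^ l), ff l a b = 0 := by
  unfold ff
  rw [sum_sub_distrib, sum_const, card_range, nsmul_eq_mul, sum_ite, sum_const_zero, add_zero,
    sum_const, nsmul_eq_mul, mul_one]
  have h1 : (range (2 ^ l)).filter (fun b => b ≡ a [MOD 2 ^ l]) = {a % 2 ^ l} := by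
    ext b
    rw [mem_filter, mem_range, mem_singleton]
    constructor
    · rintro ⟨h1, h2⟩
      rw [Nat.ModEq, Nat.mod_eq_of_lt h1] at h2
      exact h2
    · rintro rfl
      exact ⟨Nat.mod_lt _ (by positivity), Nat.mod_modEq _ _⟩
  rw [h1, card_singleton]
  push_cast
  field_simp
  norm_num

theorem exp_le_quad {x : ℝ} (hx : |x| ≤ 1) : Real.exp x ≤ 1 + x + x ^ 2 := by
  have h := Real.abs_exp_sub_one_sub_id_le hx
  have h2 := (abs_le.1 h).2
  linarith

theorem sum_exp_ff (l a : ℕ) {t : ℝ} (ht : |t| ≤ 1) :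
    ∑ b ∈ range (2 ^ l), Real.exp (t * ff l a b) ≤ 2 ^ l * Real.exp (t ^ 2) := by
  have h1 : ∀ b ∈ range (2 ^ l), Real.exp (t * ff l a b) ≤ 1 + t * ff l a b + t ^ 2 := by
    intro b _
    have h2 := abs_ff l a b
    have h3 : |t * ff l a b| ≤ 1 := by
      rw [abs_mul]
      exact mul_le_one₀ ht (abs_nonneg _) h2
    refine (exp_le_quad h3).trans ?_
    have h4 : (t * ff l a b) ^ 2 ≤ t ^ 2 := by
      rw [mul_pow]
      have h5 : ff l a b ^ 2 ≤ 1 := by
        rw [← sq_abs]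
        exact pow_le_one₀ (abs_nonneg _) h2
      have h6 : 0 ≤ t ^ 2 := sq_nonneg t
      nlinarith
    linarith
  refine (sum_le_sum h1).trans ?_
  rw [sum_add_distrib, sum_add_distrib, ← mul_sum, sum_ff, mul_zero, add_zero, sum_const, sum_const,
    card_range, nsmul_eq_mul, nsmul_eq_mul, mul_one]
  push_cast
  have h7 : t ^ 2 + 1 ≤ Real.exp (t ^ 2) := Real.add_one_le_exp _
  have h8 : (0 : ℝ) < 2 ^ l := by positivity
  nlinarith

/-- the sum over the times `c, c + l, …, c + (q - 1) l` -/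
noncomputable def Z (d : Bool) (l a c q m : ℕ) : ℝ :=
  ∑ i ∈ range q, ff l a ((T d)^[c + i * l] m)

theorem Z_congr (d : Bool) (l a c q : ℕ) {m n : ℕ} (h : m ≡ n [MOD 2 ^ (c + q * l)]) :
    Z d l a c q m = Z d l a c q n := by
  unfold Z
  refine sum_congr rfl fun i hi => ff_congr l a (iter_congr d ?_)
  refine h.of_dvd (pow_dvd_pow 2 ?_)
  have h1 : i + 1 ≤ q := mem_range.1 hi
  have h2 : (i + 1) * l ≤ q * l := Nat.mul_le_mul_right l h1
  rw [add_mul, one_mul] at h2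
  omega

theorem sum_exp_Z (d : Bool) (l a c q : ℕ) {t : ℝ} (ht : |t| ≤ 1) :
    ∑ r ∈ range (2 ^ (c + q * l)), Real.exp (t * Z d l a c q r) ≤
      2 ^ (c + q * l) * Real.exp (q * t ^ 2) := by
  induction q with
  | zero => simp [Z]
  | succ q ih =>
    have e : c + (q + 1) * l = (c + q * l) + l := by ring
    have h1 : ∀ r, Real.exp (t * Z d l a c (q + 1) r) =
        Real.exp (t * Z d l a c q r) * Real.exp (t * ff l a ((T d)^[c + q * l] r)) := by
      intro r
      rw [← Real.exp_add, Z, sum_range_succ, ← mul_add]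
      rfl
    rw [e]
    simp only [h1]
    rw [sum_indep d (c + q * l) l (fun r => Real.exp (t * Z d l a c q r))
      (fun b => Real.exp (t * ff l a b))
      (fun m n h => by simp only [Z_congr d l a c q h])
      (fun m n h => by simp only [ff_congr l a h])]
    refine (mul_le_mul ih (sum_exp_ff l a ht) (sum_nonneg fun _ _ => (Real.exp_pos _).le)
      (by positivity)).trans (le_of_eq ?_)
    rw [pow_add 2 (c + q * l) l]
    push_cast
    rw [add_mul, one_mul, Real.exp_add]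
    ring

open Classical in
theorem card_one (d : Bool) (l a c q k : ℕ) (hk : c + q * l ≤ k) {t x s : ℝ} (ht : |t| ≤ 1)
    (hs : ∀ r, x < s * Z d l a c q r → |t| * x ≤ t * Z d l a c q r) :
    (((range (2 ^ k)).filter fun r => x < s * Z d l a c q r).card : ℝ) ≤
      2 ^ k * Real.exp (q * t ^ 2 - |t| * x) := by
  have h1 := sum_mod d hk (fun r => Real.exp (t * Z d l a c q r))
    (fun m n h => by simp only [Z_congr d l a c q h])
  have h2 := sum_exp_Z d l a c q ht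
  have h3 : (((range (2 ^ k)).filter fun r => x < s * Z d l a c q r).card : ℝ) *
      Real.exp (|t| * x) ≤ ∑ r ∈ range (2 ^ k), Real.exp (t * Z d l a c q r) := by
    rw [← nsmul_eq_mul, ← sum_const]
    refine (sum_le_sum (g := fun r => Real.exp (t * Z d l a c q r)) ?_).trans
      (sum_le_sum_of_subset_of_nonneg (filter_subset _ _) fun _ _ _ => (Real.exp_pos _).le)
    intro r hr
    exact Real.exp_le_exp.2 (hs r (mem_filter.1 hr).2)
  rw [Real.exp_sub, mul_div_assoc', le_div_iff₀ (Real.exp_pos _)]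
  refine h3.trans ?_
  rw [h1]
  calc (∑ r ∈ range (2 ^ (c + q * l)), Real.exp (t * Z d l a c q r)) * 2 ^ (k - (c + q * l))
      ≤ 2 ^ (c + q * l) * Real.exp (q * t ^ 2) * 2 ^ (k - (c + q * l)) :=
        mul_le_mul_of_nonneg_right h2 (by positivity)
    _ = 2 ^ (c + q * l + (k - (c + q * l))) * Real.exp (q * t ^ 2) := by
        rw [pow_add 2 (c + q * l) (k - (c + q * l))]
        ring
    _ = 2 ^ k * Real.exp (q * t ^ 2) := by rw [Nat.add_sub_cancel' hk]

open Classical in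
theorem card_abs (d : Bool) (l a c q k : ℕ) (hk : c + q * l ≤ k) {t x : ℝ} (ht0 : 0 ≤ t)
    (ht : t ≤ 1) :
    (((range (2 ^ k)).filter fun r => x < |Z d l a c q r|).card : ℝ) ≤
      2 * (2 ^ k * Real.exp (q * t ^ 2 - t * x)) := by
  have h1 := card_one d l a c q k hk (t := t) (x := x) (s := 1) (by rwa [abs_of_nonneg ht0])
    (fun r hr => by
      rw [abs_of_nonneg ht0]
      rw [one_mul] at hr
      exact mul_le_mul_of_nonneg_left hr.le ht0)
  have h2 := card_one d l a c q k hk (t := -t) (x := x) (s := -1)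
    (by rwa [abs_neg, abs_of_nonneg ht0])
    (fun r hr => by
      rw [abs_neg, abs_of_nonneg ht0]
      have := mul_le_mul_of_nonneg_left hr.le ht0
      linarith)
  rw [abs_of_nonneg ht0] at h1
  rw [abs_neg, abs_of_nonneg ht0, neg_sq] at h2
  have h3 : ((range (2 ^ k)).filter fun r => x < |Z d l a c q r|) ⊆
      ((range (2 ^ k)).filter fun r => x < 1 * Z d l a c q r) ∪
        ((range (2 ^ k)).filter fun r => x < -1 * Z d l a c q r) := by
    intro r hr
    rw [mem_filter] at hr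
    rw [mem_union, mem_filter, mem_filter]
    rcases lt_abs.1 hr.2 with h | h
    · left
      exact ⟨hr.1, by rwa [one_mul]⟩
    · right
      exact ⟨hr.1, by rwa [neg_one_mul]⟩
  have h4 := (card_le_card h3).trans (card_union_le _ _)
  have h5 : (((range (2 ^ k)).filter fun r => x < |Z d l a c q r|).card : ℝ) ≤
      (((range (2 ^ k)).filter fun r => x < 1 * Z d l a c q r).card : ℝ) +
        (((range (2 ^ k)).filter fun r => x < -1 * Z d l a c q r).card : ℝ) := by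
    exact_mod_cast h4
  linarith

/-! ### The exceptional classes -/

/-- the numbers for which some arithmetic progression of times of difference `l` visits the class
too often or too rarely -/
def E (d : Bool) (l a : ℕ) (η : ℝ) (b : ℕ) : Set ℕ :=
  {m : ℕ | ∃ c < l, ∃ q : ℕ, c + q * l ≤ b / 20 ∧ η * b < |Z d l a c q m|}

open Classical in
theorem E_bc (d : Bool) (l a : ℕ) (η : ℝ) (hη : 0 < η) (hη1 : η ≤ 1) : ∃ C : ℝ, ∀ b : ℕ,
    ∃ k : ℕ, k ≤ b / 20 ∧ (∀ m n : ℕ, m ≡ n [MOD 2 ^ k] → (m ∈ E d l a η b ↔ n ∈ E d l a η b)) ∧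
      (((range (2 ^ k)).filter fun r => r ∈ E d l a η b).card : ℝ) ≤ C / b ^ 3 * 2 ^ k := by
  refine ⟨4 * l * (24 * 16 / η ^ 8), fun b => ⟨b / 20, le_rfl, ?_, ?_⟩⟩
  · intro m n h
    unfold E
    simp only [Set.mem_ofPred_eq]
    have h1 : ∀ c q : ℕ, c + q * l ≤ b / 20 → Z d l a c q m = Z d l a c q n := fun c q hcq =>
      Z_congr d l a c q (h.of_dvd (pow_dvd_pow 2 hcq))
    constructor
    · rintro ⟨c, hc, q, hq, h2⟩
      exact ⟨c, hc, q, hq, by rwa [← h1 c q hq]⟩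
    · rintro ⟨c, hc, q, hq, h2⟩
      exact ⟨c, hc, q, hq, by rwa [h1 c q hq]⟩
  · rcases Nat.eq_zero_or_pos b with hb | hb
    · have h1 : ((range (2 ^ (b / 20))).filter fun r => r ∈ E d l a η b) = ∅ := by
        rw [filter_eq_empty_iff]
        rintro r - ⟨c, hc, q, hq, h2⟩
        subst hb
        have h3 : q * l ≤ 0 := by omega
        have h4 : q = 0 := by
          rcases Nat.eq_zero_or_pos q with h | h
          · exact h
          · have : 1 * l ≤ q * l := Nat.mul_le_mul_right l h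
            omega
        subst h4
        simp [Z] at h2
      rw [h1, card_empty, Nat.cast_zero]
      positivity
    · have hb1 : (1 : ℝ) ≤ b := by exact_mod_cast hb
      have hb0 : (0 : ℝ) < b := by linarith
      set k : ℕ := b / 20 with hk
      have hkb : (k : ℝ) ≤ b / 20 := Nat.cast_div_le
      have hsub : ((range (2 ^ k)).filter fun r => r ∈ E d l a η b) ⊆
          (range l ×ˢ range (k + 1)).biUnion fun p =>
            if p.1 + p.2 * l ≤ k then
              (range (2 ^ k)).filter fun r => η * b < |Z d l a p.1 p.2 r| else ∅ := by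
        intro r hr
        rw [mem_filter] at hr
        obtain ⟨h0, c, hc, q, hq, h2⟩ := hr
        rw [mem_biUnion]
        have hq' : q ≤ k := by
          have : q * 1 ≤ q * l := Nat.mul_le_mul_left q (by omega)
          omega
        refine ⟨(c, q), ?_, ?_⟩
        · rw [mem_product, mem_range, mem_range]
          exact ⟨hc, by simp only; omega⟩
        · simp only
          rw [if_pos hq, mem_filter]
          exact ⟨h0, h2⟩
      have h1 : ∀ p ∈ range l ×ˢ range (k + 1),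
          ((if p.1 + p.2 * l ≤ k then
              (range (2 ^ k)).filter fun r => η * b < |Z d l a p.1 p.2 r| else ∅ :
                Finset ℕ).card : ℝ) ≤ 2 * (2 ^ k * Real.exp (-(η ^ 2 * b / 2))) := by
        intro p hp
        split_ifs with h
        · refine (card_abs d l a p.1 p.2 k h hη.le hη1).trans ?_
          have h2 : Real.exp (p.2 * η ^ 2 - η * (η * b)) ≤ Real.exp (-(η ^ 2 * b / 2)) := by
            apply Real.exp_le_exp.2
            have h3 : (p.2 : ℝ) ≤ b / 20 := by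
              have h4 : p.2 ≤ k := by
                have := (mem_product.1 hp).2
                rw [mem_range] at this
                omega
              have h5 : (p.2 : ℝ) ≤ k := by exact_mod_cast h4
              linarith
            have h6 : 0 ≤ η ^ 2 := sq_nonneg η
            nlinarith
          have h7 : (0 : ℝ) < 2 ^ k := by positivity
          nlinarith
        · rw [card_empty, Nat.cast_zero]
          positivity
      have h2 : (((range (2 ^ k)).filter fun r => r ∈ E d l a η b).card : ℝ) ≤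
          (l * (k + 1) : ℝ) * (2 * (2 ^ k * Real.exp (-(η ^ 2 * b / 2)))) := by
        have h3 := (card_le_card hsub).trans card_biUnion_le
        have h4 : (((range (2 ^ k)).filter fun r => r ∈ E d l a η b).card : ℝ) ≤
            ∑ p ∈ range l ×ˢ range (k + 1), ((if p.1 + p.2 * l ≤ k then
              (range (2 ^ k)).filter fun r => η * b < |Z d l a p.1 p.2 r| else ∅ :
                Finset ℕ).card : ℝ) := by exact_mod_cast h3
        refine h4.trans ((sum_le_sum h1).trans (le_of_eq ?_))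
        rw [sum_const, card_product, card_range, card_range, nsmul_eq_mul]
        push_cast
        ring
      refine h2.trans ?_
      have hy : 0 < η ^ 2 * b / 2 := by positivity
      have h3 := H62.exp_bound 4 (η ^ 2 * b / 2) hy
      have h4 : ((k : ℝ) + 1) ≤ 2 * b := by linarith
      have h5 : ((4 : ℕ).factorial : ℝ) / (η ^ 2 * b / 2) ^ 4 = 24 * 16 / η ^ 8 / b ^ 4 := by
        rw [show ((4 : ℕ).factorial : ℝ) = 24 by norm_num [Nat.factorial]]
        field_simp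
        ring
      rw [h5] at h3
      calc ((l : ℝ) * ((k : ℝ) + 1)) * (2 * (2 ^ k * Real.exp (-(η ^ 2 * b / 2))))
          ≤ ((l : ℝ) * (2 * b)) * (2 * (2 ^ k * (24 * 16 / η ^ 8 / b ^ 4))) := by
            refine mul_le_mul (mul_le_mul_of_nonneg_left h4 (Nat.cast_nonneg _)) ?_
              (by positivity) (by positivity)
            refine mul_le_mul_of_nonneg_left ?_ (by norm_num)
            exact mul_le_mul_of_nonneg_left h3 (by positivity)
        _ = 4 * l * (24 * 16 / η ^ 8) / b ^ 3 * 2 ^ k := by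
            field_simp
            ring

/-! ### One level -/

theorem sum_split (f : ℕ → ℝ) (l q : ℕ) :
    ∑ j ∈ range (q * l), f j = ∑ c ∈ range l, ∑ i ∈ range q, f (c + i * l) := by
  induction q with
  | zero => simp
  | succ q ih =>
    rw [add_mul, one_mul, sum_range_add, ih, ← sum_add_distrib]
    refine sum_congr rfl fun c _ => ?_
    rw [sum_range_succ, add_comm (q * l) c]

theorem abs_sum_ff (d : Bool) (l a n i k : ℕ) (hik : i ≤ k) :
    |∑ j ∈ Ico i k, ff l a ((T d)^[j] n)| ≤ (k : ℝ) - i := by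
  refine (abs_sum_le_sum_abs _ _).trans ?_
  refine (sum_le_sum fun j _ => abs_ff l a ((T d)^[j] n)).trans (le_of_eq ?_)
  rw [sum_const, Nat.card_Ico, nsmul_eq_mul, mul_one, Nat.cast_sub hik]

theorem window (d : Bool) (l a : ℕ) (hl : 1 ≤ l) (η : ℝ) (b m : ℕ) (hb : 20 * l ≤ b)
    (hηb : 2 * (l : ℝ) ≤ η * b) (hm : m ∉ E d l a η b) (s : ℕ) (hs : s ≤ b / 20) :
    |∑ j ∈ range s, ff l a ((T d)^[j] m)| ≤ (l + 1) * (η * b) := by
  have hq : ∃ q : ℕ, q * l ≤ s ∧ s ≤ q * l + 2 * l ∧ ∀ c < l, c + q * l ≤ b / 20 := by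
    have h1 : l * (s / l) + s % l = s := Nat.div_add_mod s l
    have h2 : s % l < l := Nat.mod_lt _ hl
    rcases Nat.eq_zero_or_pos (s / l) with h | h
    · refine ⟨0, by omega, ?_, fun c hc => ?_⟩
      · rw [h] at h1
        omega
      · have : l ≤ b / 20 := by omega
        omega
    · obtain ⟨q, hq⟩ : ∃ q, s / l = q + 1 := ⟨s / l - 1, by omega⟩
      rw [hq] at h1
      have h3 : l * (q + 1) = q * l + l := by ring
      rw [h3] at h1
      exact ⟨q, by omega, by omega, fun c hc => by omega⟩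
  obtain ⟨q, h1, h2, h3⟩ := hq
  have h4 : ∑ j ∈ range s, ff l a ((T d)^[j] m) =
      ∑ j ∈ range (q * l), ff l a ((T d)^[j] m) + ∑ j ∈ Ico (q * l) s, ff l a ((T d)^[j] m) :=
    (sum_range_add_sum_Ico _ h1).symm
  have h5 := abs_sum_ff d l a m (q * l) s h1
  have h6 : |∑ j ∈ range (q * l), ff l a ((T d)^[j] m)| ≤ l * (η * b) := by
    rw [sum_split (fun j => ff l a ((T d)^[j] m)) l q]
    refine (abs_sum_le_sum_abs _ _).trans ?_
    have h7 : ∀ c ∈ range l, |∑ i ∈ range q, ff l a ((T d)^[c + i * l] m)| ≤ η * b := by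
      intro c hc
      by_contra h
      push Not at h
      exact hm ⟨c, mem_range.1 hc, q, h3 c (mem_range.1 hc), h⟩
    refine (sum_le_sum h7).trans (le_of_eq ?_)
    rw [sum_const, card_range, nsmul_eq_mul]
  have h8 : (s : ℝ) - ((q * l : ℕ) : ℝ) ≤ 2 * l := by
    have : (s : ℝ) ≤ ((q * l : ℕ) : ℝ) + 2 * l := by exact_mod_cast h2
    linarith
  rw [h4]
  have h9 := abs_add_le (∑ j ∈ range (q * l), ff l a ((T d)^[j] m))
    (∑ j ∈ Ico (q * l) s, ff l a ((T d)^[j] m))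
  have h10 : ((l : ℝ) + 1) * (η * b) = l * (η * b) + η * b := by ring
  linarith

/-! ### All levels -/

theorem descend (d : Bool) : ∃ a₂ : ℕ, ∀ (n b i : ℕ), a₂ ≤ b → n ≠ 0 → b ≤ Nat.log 2 n + 1 →
    (T d)^[i] n < 2 ^ b → (∀ j < i, 2 ^ b ≤ (T d)^[j] n) →
    (T d)^[i] n ∉ H62.E d (3 / 4) b → (T d)^[i + b / 20] n < 2 ^ (b - b / 200) := by
  obtain ⟨a₂, ha₂⟩ := H62.large (3 / 4) (by norm_num)
  refine ⟨max a₂ 400, fun n a i haa hn ha hi hj hE => ?_⟩
  have ha400 : 400 ≤ a := (le_max_right a₂ 400).trans haa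
  have ha2 : a₂ ≤ a := (le_max_left a₂ 400).trans haa
  have hbig := ha₂ a ha2
  have ha0 : (0 : ℝ) < a := by exact_mod_cast (by omega : 0 < a)
  have hm := H62.passage_ge d n a i hn ha hj
  have hod : ∀ s : ℕ, s ≤ a / 20 → |2 * (od d s ((T d)^[i] n) : ℝ) - s| ≤
      ((⌈(a : ℝ) ^ (3 / 4 : ℝ)⌉₊ : ℕ) : ℝ) := by
    intro s hs
    by_contra h
    push Not at h
    exact hE ⟨s, hs, h⟩
  have h1 := H62.path_log d ((T d)^[i] n) (a / 20) (a - 1) ⌈(a : ℝ) ^ (3 / 4 : ℝ)⌉₊ hm (by omega)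
    (hod _ le_rfl)
  rw [← Function.iterate_add_apply, add_comm (a / 20) i] at h1
  have h2 := H62.short (3 / 4) (by norm_num) a (by omega)
  have h3 : Real.logb 2 ((T d)^[i] n) < a := by
    have h4 : (0 : ℝ) < (((T d)^[i] n : ℕ) : ℝ) := by
      have : 0 < (T d)^[i] n := lt_of_lt_of_le (by positivity) hm
      exact_mod_cast this
    rw [Real.logb_lt_iff_lt_rpow (by norm_num) h4, Real.rpow_natCast]
    exact_mod_cast hi
  have h5 : (1 / 5 : ℝ) * ((a : ℝ) / 20 - 1) ≤ mu * ((a / 20 : ℕ) : ℝ) := by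
    have h6 : (a : ℝ) / 20 - 1 ≤ ((a / 20 : ℕ) : ℝ) := by
      have h7 : a ≤ 20 * (a / 20) + 20 := by omega
      have h8 : (a : ℝ) ≤ 20 * ((a / 20 : ℕ) : ℝ) + 20 := by exact_mod_cast h7
      linarith
    have h9 : (0 : ℝ) ≤ (a : ℝ) / 20 - 1 := by
      have : (400 : ℝ) ≤ a := by exact_mod_cast ha400
      linarith
    exact mul_le_mul H62.mu_gt.le h6 h9 (by linarith [H62.mu_gt])
  have h10 : Real.logb 2 ((T d)^[i + a / 20] n) < ((a - a / 200 : ℕ) : ℝ) := by
    have h11 : ((a - a / 200 : ℕ) : ℝ) ≥ a - (a : ℝ) / 200 := by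
      have h12 : 199 * a ≤ 200 * (a - a / 200) := by omega
      have h13 : (199 : ℝ) * a ≤ 200 * ((a - a / 200 : ℕ) : ℝ) := by exact_mod_cast h12
      linarith
    have h14 := (abs_le.1 h1).2
    have h15 : (1 : ℝ) ≤ (a : ℝ) ^ (3 / 4 : ℝ) :=
      Real.one_le_rpow (by exact_mod_cast (by omega : 1 ≤ a)) (by norm_num)
    linarith
  rcases Nat.eq_zero_or_pos ((T d)^[i + a / 20] n) with h16 | h16
  · rw [h16]
    positivity
  · rw [Real.logb_lt_iff_lt_rpow (by norm_num) (by exact_mod_cast h16), Real.rpow_natCast] at h10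
    exact_mod_cast h10

theorem key (d : Bool) (l a : ℕ) (hl : 1 ≤ l) (η : ℝ) (hη : 0 < η) :
    ∃ a₁ : ℕ, ∀ (n L : ℕ) (G : ℝ), n ≠ 0 → a₁ ≤ L → (2 : ℝ) ^ L ≤ G →
      (∀ b : ℕ, L ≤ b → b ≤ Nat.log 2 n + 1 → n ∉ HB d b (H62.E d (3 / 4) b)) →
      (∀ b : ℕ, L ≤ b → b ≤ Nat.log 2 n + 1 → n ∉ HB d b (E d l a η b)) →
      ∀ b i : ℕ, b ≤ Nat.log 2 n + 1 → (T d)^[i] n < 2 ^ b → (∀ j < i, 2 ^ b ≤ (T d)^[j] n) →
      ∀ k : ℕ, i ≤ k → (∀ j < k, G ≤ (((T d)^[j] n : ℕ) : ℝ)) →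
      |∑ j ∈ Ico i k, ff l a ((T d)^[j] n)| ≤ 400 * ((l + 1) * (η * b)) := by
  obtain ⟨a₂, ha₂⟩ := descend d
  obtain ⟨a₃, ha₃⟩ := exists_nat_gt (2 * (l : ℝ) / η)
  refine ⟨max (max a₂ a₃) (400 * l), fun n L G hn hL hG hgood hgood' b => ?_⟩
  induction b using Nat.strong_induction_on with
  | _ b ih =>
    intro i hb hi hj k hik hk
    rcases Nat.eq_or_lt_of_le hik with hik' | hik'
    · subst hik'
      rw [Ico_self, sum_empty, abs_zero]
      positivity
    have hLb : L < b := by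
      have h1 : (2 : ℝ) ^ L < 2 ^ b :=
        lt_of_le_of_lt (hG.trans (hk i hik')) (by exact_mod_cast hi)
      exact (pow_lt_pow_iff_right₀ (by norm_num)).1 h1
    have hb2 : a₂ ≤ b := by
      have := (le_max_left a₂ a₃).trans (le_max_left _ (400 * l))
      omega
    have hb3 : a₃ ≤ b := by
      have := (le_max_right a₂ a₃).trans (le_max_left _ (400 * l))
      omega
    have hb4 : 400 * l ≤ b := by
      have := le_max_right (max a₂ a₃) (400 * l)
      omega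
    have hb0 : (0 : ℝ) ≤ b := Nat.cast_nonneg _
    have hηb : 2 * (l : ℝ) ≤ η * b := by
      have h1 : 2 * (l : ℝ) / η ≤ b := ha₃.le.trans (by exact_mod_cast hb3)
      rw [div_le_iff₀ hη] at h1
      linarith
    have hE1 : (T d)^[i] n ∉ H62.E d (3 / 4) b := fun h => hgood b hLb.le hb ⟨i, hi, hj, h⟩
    have hE2 : (T d)^[i] n ∉ E d l a η b := fun h => hgood' b hLb.le hb ⟨i, hi, hj, h⟩
    have hw : ∀ s : ℕ, s ≤ b / 20 → |∑ j ∈ Ico i (i + s), ff l a ((T d)^[j] n)| ≤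
        (l + 1) * (η * b) := by
      intro s hs
      have h1 := window d l a hl η b ((T d)^[i] n) (by omega) hηb hE2 s hs
      rw [sum_Ico_eq_sum_range, Nat.add_sub_cancel_left]
      refine le_trans (le_of_eq ?_) h1
      congr 1
      refine sum_congr rfl fun j _ => ?_
      rw [← Function.iterate_add_apply, add_comm j i]
    have hpos : (0 : ℝ) ≤ (l + 1) * (η * b) := by positivity
    by_cases hs : k - i ≤ b / 20
    · have h1 := hw (k - i) hs
      rw [Nat.add_sub_cancel' hik] at h1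
      linarith
    · push Not at hs
      have hlow := ha₂ n b i hb2 hn hb hi hj hE1
      classical
      have hex : ∃ s : ℕ, (T d)^[i + s] n < 2 ^ (b - b / 200) := ⟨_, hlow⟩
      set s₁ := Nat.find hex with hs₁
      have h1 : (T d)^[i + s₁] n < 2 ^ (b - b / 200) := Nat.find_spec hex
      have h2 : s₁ ≤ b / 20 := Nat.find_min' hex hlow
      have h3 : ∀ s < s₁, 2 ^ (b - b / 200) ≤ (T d)^[i + s] n := fun s hs =>
        not_lt.1 (Nat.find_min hex hs)
      have h4 := ih (b - b / 200) (by omega) (i + s₁) (by omega) h1 (by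
        intro j hj'
        rcases Nat.lt_or_ge j i with h5 | h5
        · exact (Nat.pow_le_pow_right (by norm_num) (by omega)).trans (hj j h5)
        · obtain ⟨s, rfl⟩ := Nat.exists_eq_add_of_le h5
          exact h3 s (by omega)) k (by omega) hk
      have h5 := hw s₁ h2
      rw [← sum_Ico_consecutive _ (Nat.le_add_right i s₁) (by omega : i + s₁ ≤ k)]
      have h6 := abs_add_le (∑ j ∈ Ico i (i + s₁), ff l a ((T d)^[j] n))
        (∑ j ∈ Ico (i + s₁) k, ff l a ((T d)^[j] n))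
      have h7 : ((b - b / 200 : ℕ) : ℝ) ≤ 399 / 400 * b := by
        have h8 : 400 * (b - b / 200) ≤ 399 * b := by omega
        have h9 : (400 : ℝ) * ((b - b / 200 : ℕ) : ℝ) ≤ 399 * b := by exact_mod_cast h8
        linarith
      have h10 : ((l : ℝ) + 1) * (η * ((b - b / 200 : ℕ) : ℝ)) ≤
          399 / 400 * (((l : ℝ) + 1) * (η * b)) := by
        have h11 : ((l : ℝ) + 1) * (η * ((b - b / 200 : ℕ) : ℝ)) ≤
            ((l : ℝ) + 1) * (η * (399 / 400 * b)) := by
          refine mul_le_mul_of_nonneg_left ?_ (by positivity)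
          exact mul_le_mul_of_nonneg_left h7 hη.le
        linarith
      linarith

/-! ### The theorem -/

theorem hasDensN_inter {A B : Set ℕ} (hA : HasDensN A 1) (hB : HasDensN B 1) :
    HasDensN (A ∩ B) 1 := by
  unfold HasDensN at hA hB ⊢
  have h1 := (hA.add hB).sub (tendsto_const_nhds (x := (1 : ℝ)))
  rw [show (1 : ℝ) + 1 - 1 = 1 by ring] at h1
  refine tendsto_of_tendsto_of_tendsto_of_le_of_le' h1 hA ?_ ?_
  · filter_upwards [eventually_gt_atTop (0 : ℝ)] with X hX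
    rw [← add_div, div_sub_one hX.ne']
    refine div_le_div_of_nonneg_right ?_ hX.le
    have h2 : {N : ℕ | N ∈ A ∧ 1 ≤ N ∧ (N : ℝ) ≤ X} ∪ {N : ℕ | N ∈ B ∧ 1 ≤ N ∧ (N : ℝ) ≤ X} ⊆
        ((Icc 1 ⌊X⌋₊ : Finset ℕ) : Set ℕ) := by
      rintro N (⟨-, h3, h4⟩ | ⟨-, h3, h4⟩) <;>
      · rw [mem_coe, mem_Icc]
        exact ⟨h3, Nat.le_floor h4⟩
    have h3 := Set.ncard_le_ncard h2 (finite_toSet _)
    rw [Set.ncard_coe_finset, Nat.card_Icc, Nat.add_sub_cancel] at h3
    have h4 := Set.ncard_union_add_ncard_inter {N : ℕ | N ∈ A ∧ 1 ≤ N ∧ (N : ℝ) ≤ X}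
      {N : ℕ | N ∈ B ∧ 1 ≤ N ∧ (N : ℝ) ≤ X} (H62.finite_cnt A X) (H62.finite_cnt B X)
    have h5 : {N : ℕ | N ∈ A ∧ 1 ≤ N ∧ (N : ℝ) ≤ X} ∩ {N : ℕ | N ∈ B ∧ 1 ≤ N ∧ (N : ℝ) ≤ X} =
        {N : ℕ | N ∈ A ∩ B ∧ 1 ≤ N ∧ (N : ℝ) ≤ X} := by
      ext N
      simp only [Set.mem_inter_iff, Set.mem_ofPred_eq]
      tauto
    rw [h5] at h4
    have h6 : (({N : ℕ | N ∈ A ∧ 1 ≤ N ∧ (N : ℝ) ≤ X} ∪
        {N : ℕ | N ∈ B ∧ 1 ≤ N ∧ (N : ℝ) ≤ X}).ncard : ℝ) ≤ X :=
      (by exact_mod_cast h3 : (_ : ℝ) ≤ (⌊X⌋₊ : ℝ)).trans (Nat.floor_le hX.le)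
    have h7 : (({N : ℕ | N ∈ A ∧ 1 ≤ N ∧ (N : ℝ) ≤ X} ∪
        {N : ℕ | N ∈ B ∧ 1 ≤ N ∧ (N : ℝ) ≤ X}).ncard : ℝ) +
        ({N : ℕ | N ∈ A ∩ B ∧ 1 ≤ N ∧ (N : ℝ) ≤ X}.ncard : ℝ) =
        ({N : ℕ | N ∈ A ∧ 1 ≤ N ∧ (N : ℝ) ≤ X}.ncard : ℝ) +
        ({N : ℕ | N ∈ B ∧ 1 ≤ N ∧ (N : ℝ) ≤ X}.ncard : ℝ) := by exact_mod_cast h4
    linarith
  · filter_upwards [eventually_gt_atTop (0 : ℝ)] with X hX
    refine div_le_div_of_nonneg_right ?_ hX.le
    have h2 : {N : ℕ | N ∈ A ∩ B ∧ 1 ≤ N ∧ (N : ℝ) ≤ X} ⊆ {N : ℕ | N ∈ A ∧ 1 ≤ N ∧ (N : ℝ) ≤ X} := by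
      rintro N ⟨h3, h4⟩
      exact ⟨h3.1, h4⟩
    exact_mod_cast Set.ncard_le_ncard h2 (H62.finite_cnt A X)

theorem log_le (n : ℕ) (hn : 1 ≤ n) (h3 : 1 ≤ Real.log n) :
    ((Nat.log 2 n + 1 : ℕ) : ℝ) ≤ 3 * Real.log n := by
  have hl2 : (1 / 2 : ℝ) < Real.log 2 := by
    have := Real.log_two_gt_d9
    linarith
  have h6 : ((2 ^ Nat.log 2 n : ℕ) : ℝ) ≤ n := by
    exact_mod_cast Nat.pow_log_le_self 2 (by omega)
  have h7 := Real.log_le_log (by positivity) h6
  rw [Nat.cast_pow, Real.log_pow] at h7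
  push_cast at h7 ⊢
  nlinarith [(Nat.cast_nonneg (Nat.log 2 n) : (0 : ℝ) ≤ (Nat.log 2 n : ℝ))]

theorem dev_eq (d : Bool) (l a n k : ℕ) :
    ((((range k).filter fun j => (T d)^[j] n ≡ a [MOD 2 ^ l]).card : ℕ) : ℝ) - (k : ℝ) / 2 ^ l =
      ∑ j ∈ Ico 0 k, ff l a ((T d)^[j] n) := by
  rw [Nat.Ico_zero_eq_range]
  unfold ff
  rw [sum_sub_distrib, sum_const, card_range, nsmul_eq_mul, sum_ite, sum_const_zero, add_zero,
    sum_const, nsmul_eq_mul, mul_one, mul_one_div]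

theorem normal (hBC : BCStatement) : NormalStatement := by
  obtain ⟨a₀, hBC⟩ := hBC
  intro d g hg l a ε hε
  have hl : Tendsto (fun n => Nat.log 2 ⌊g n⌋₊) atTop atTop :=
    H62.tendsto_natLog.comp (tendsto_nat_floor_atTop.comp hg)
  have hlog : Tendsto (fun n : ℕ => Real.log n) atTop atTop :=
    Real.tendsto_log_atTop.comp tendsto_natCast_atTop_atTop
  obtain ⟨C, hC⟩ := H62.E_bc d (3 / 4) (by norm_num)
  have hdens := hBC d (H62.E d (3 / 4)) C (fun a _ => hC a) _ hl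
  rcases Nat.eq_zero_or_pos l with hl0 | hl0
  · subst hl0
    refine H62.hasDensN_one_of hdens 1 fun n hn _ => ?_
    intro k _
    have h1 : ((range k).filter fun j => (T d)^[j] n ≡ a [MOD 2 ^ 0]) = range k :=
      filter_true_of_mem fun j _ => by rw [pow_zero]; exact Nat.modEq_one
    rw [h1, card_range, pow_zero, div_one, sub_self, abs_zero]
    exact mul_nonneg hε.le (Real.log_natCast_nonneg n)
  · obtain ⟨η, hη, hη1, hηε⟩ : ∃ η : ℝ, 0 < η ∧ η ≤ 1 ∧ 1200 * ((l : ℝ) + 1) * η ≤ ε := by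
      refine ⟨min 1 (ε / (1200 * ((l : ℝ) + 1))), lt_min one_pos (by positivity),
        min_le_left _ _, ?_⟩
      have h1 := min_le_right 1 (ε / (1200 * ((l : ℝ) + 1)))
      rw [le_div_iff₀ (by positivity)] at h1
      linarith
    obtain ⟨C', hC'⟩ := E_bc d l a η hη hη1
    have hdens' := hBC d (E d l a η) C' (fun a _ => hC' a) _ hl
    obtain ⟨a₁, hkey⟩ := key d l a hl0 η hη
    obtain ⟨n₀, hn₀⟩ := eventually_atTop.1 ((eventually_ge_atTop 1).and
      ((hl.eventually_ge_atTop a₁).and ((hg.eventually_ge_atTop 1).and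
        (hlog.eventually_ge_atTop 1))))
    refine H62.hasDensN_one_of (hasDensN_inter hdens hdens') n₀ fun n hn hgood => ?_
    obtain ⟨h1, h2, h3, h4⟩ := hn₀ n hn
    intro k hk
    have hG : (2 : ℝ) ^ (Nat.log 2 ⌊g n⌋₊) ≤ g n := by
      have h5 : ⌊g n⌋₊ ≠ 0 := by
        have := (Nat.one_le_floor_iff _).2 h3
        omega
      have h6 : ((2 ^ Nat.log 2 ⌊g n⌋₊ : ℕ) : ℝ) ≤ (⌊g n⌋₊ : ℝ) := by
        exact_mod_cast Nat.pow_log_le_self 2 h5
      rw [Nat.cast_pow] at h6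
      exact h6.trans (Nat.floor_le (by linarith))
    have h5 := hkey n _ (g n) (by omega) h2 hG hgood.1 hgood.2 (Nat.log 2 n + 1) 0 le_rfl
      (Nat.lt_pow_succ_log_self (by norm_num) n) (by omega) k (Nat.zero_le _) hk
    rw [dev_eq]
    refine h5.trans ?_
    have h6 := log_le n h1 h4
    have h7 : (0 : ℝ) ≤ Real.log n := by linarith
    calc 400 * (((l : ℝ) + 1) * (η * ((Nat.log 2 n + 1 : ℕ) : ℝ)))
        ≤ 400 * (((l : ℝ) + 1) * (η * (3 * Real.log n))) := by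
          refine mul_le_mul_of_nonneg_left ?_ (by norm_num)
          refine mul_le_mul_of_nonneg_left ?_ (by positivity)
          exact mul_le_mul_of_nonneg_left h6 hη.le
      _ = (1200 * ((l : ℝ) + 1) * η) * Real.log n := by ring
      _ ≤ ε * Real.log n := mul_le_mul_of_nonneg_right hηε h7

end Pool.Agent.Lib.MP_edb5be_nt.TS.H67
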