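import Pool.Agent.Lib.MP_edb5be_nt.TS.Iface2
import Pool.Agent.Lib.MP_edb5be_nt.TS.H67.Normal
import Pool.Agent.Lib.MP_edb5be_nt.TS.H17.BC1

/-!
Project TS, second stage: a maximal inequality for the window counts, and the levels of the
trajectory with thresholds of the order of the square root of the logarithm.
-/

set_option autoImplicit false

namespace Pool.Agent.Lib.MP_edb5be_nt.TS.H67

open Finset Filter Topology Pool.Agent.Lib.MP_0a5adf_nt Pool.Agent.Lib.MP_0a5adf_nt.TP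
  Pool.Agent.Lib.MP_edb5be_nt.ND Pool.Agent.Lib.MP_edb5be_nt.TS

/-! ### The stopped exponential martingale -/

/-- the exponential martingale, stopped when it reaches `lam` -/
noncomputable def W (d : Bool) (l a c : ℕ) (t lam : ℝ) : ℕ → ℕ → ℝ
  | 0, _ => 1
  | (q + 1), r => if lam ≤ W d l a c t lam q r then W d l a c t lam q r
      else W d l a c t lam q r * Real.exp (t * ff l a ((T d)^[c + q * l] r) - t ^ 2)

theorem W_pos (d : Bool) (l a c : ℕ) (t lam : ℝ) (q r : ℕ) : 0 < W d l a c t lam q r := by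
  induction q with
  | zero => exact one_pos
  | succ q ih =>
    rw [W]
    split_ifs
    · exact ih
    · exact mul_pos ih (Real.exp_pos _)

theorem W_congr (d : Bool) (l a c : ℕ) (t lam : ℝ) (q : ℕ) {m n : ℕ}
    (h : m ≡ n [MOD 2 ^ (c + q * l)]) : W d l a c t lam q m = W d l a c t lam q n := by
  induction q with
  | zero => rfl
  | succ q ih =>
    have h1 : m ≡ n [MOD 2 ^ (c + q * l)] := by
      refine h.of_dvd (pow_dvd_pow 2 ?_)
      rw [add_mul]
      omega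
    have h2 : ff l a ((T d)^[c + q * l] m) = ff l a ((T d)^[c + q * l] n) := by
      refine ff_congr l a (iter_congr d ?_)
      refine h.of_dvd (pow_dvd_pow 2 ?_)
      rw [add_mul]
      omega
    rw [W, W, ih h1, h2]

theorem sum_W (d : Bool) (l a c : ℕ) {t lam : ℝ} (ht : |t| ≤ 1) (q : ℕ) :
    ∑ r ∈ range (2 ^ (c + q * l)), W d l a c t lam q r ≤ 2 ^ (c + q * l) := by
  induction q with
  | zero => simp [W]
  | succ q ih =>
    have e : c + (q + 1) * l = (c + q * l) + l := by ring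
    have h1 : ∀ r, W d l a c t lam (q + 1) r =
        (if lam ≤ W d l a c t lam q r then W d l a c t lam q r else 0) * 1 +
        (if lam ≤ W d l a c t lam q r then 0 else W d l a c t lam q r) *
          Real.exp (t * ff l a ((T d)^[c + q * l] r) - t ^ 2) := by
      intro r
      rw [W]
      split_ifs <;> ring
    rw [e]
    simp only [h1]
    rw [sum_add_distrib]
    have h2 := sum_indep d (c + q * l) l
      (fun r => if lam ≤ W d l a c t lam q r then W d l a c t lam q r else 0) (fun _ => 1)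
      (fun m n h => by simp only [W_congr d l a c t lam q h]) (fun _ _ _ => rfl)
    have h3 := sum_indep d (c + q * l) l
      (fun r => if lam ≤ W d l a c t lam q r then 0 else W d l a c t lam q r)
      (fun b => Real.exp (t * ff l a b - t ^ 2))
      (fun m n h => by simp only [W_congr d l a c t lam q h])
      (fun m n h => by simp only [ff_congr l a h])
    rw [h2, h3]
    have h4 : ∑ b ∈ range (2 ^ l), Real.exp (t * ff l a b - t ^ 2) ≤ 2 ^ l := by
      have h5 := sum_exp_ff l a ht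
      simp only [Real.exp_sub]
      rw [← sum_div, div_le_iff₀ (Real.exp_pos _)]
      exact h5
    have h6 : ∑ _b ∈ range (2 ^ l), (1 : ℝ) = 2 ^ l := by simp
    rw [h6]
    have h7 : 0 ≤ ∑ r ∈ range (2 ^ (c + q * l)),
        (if lam ≤ W d l a c t lam q r then 0 else W d l a c t lam q r) :=
      sum_nonneg fun r _ => by
        split_ifs
        · exact le_rfl
        · exact (W_pos d l a c t lam q r).le
    have h8 : ∑ r ∈ range (2 ^ (c + q * l)),
        (if lam ≤ W d l a c t lam q r then W d l a c t lam q r else 0) +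
        ∑ r ∈ range (2 ^ (c + q * l)),
        (if lam ≤ W d l a c t lam q r then 0 else W d l a c t lam q r) =
        ∑ r ∈ range (2 ^ (c + q * l)), W d l a c t lam q r := by
      rw [← sum_add_distrib]
      refine sum_congr rfl fun r _ => ?_
      split_ifs <;> ring
    have h9 : (0 : ℝ) < 2 ^ l := by positivity
    rw [pow_add 2 (c + q * l) l]
    have h10 := mul_le_mul_of_nonneg_left h4 h7
    have h11 := mul_le_mul_of_nonneg_right ih h9.le
    rw [← h8, add_mul] at h11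
    linarith

theorem W_stay (d : Bool) (l a c : ℕ) {t lam : ℝ} {q q' r : ℕ} (hq : q ≤ q')
    (h : lam ≤ W d l a c t lam q r) : lam ≤ W d l a c t lam q' r := by
  induction q', hq using Nat.le_induction with
  | base => exact h
  | succ n _ ih =>
    rw [W, if_pos ih]
    exact ih

theorem W_eq (d : Bool) (l a c : ℕ) (t lam : ℝ) (q r : ℕ) : lam ≤ W d l a c t lam q r ∨
    W d l a c t lam q r = Real.exp (t * Z d l a c q r - q * t ^ 2) := by
  induction q with
  | zero => exact Or.inr (by simp [W, Z])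
  | succ q ih =>
    by_cases h : lam ≤ W d l a c t lam q r
    · exact Or.inl (W_stay d l a c (Nat.le_succ q) h)
    · rcases ih with h1 | h1
      · exact absurd h1 h
      · right
        rw [W, if_neg h, h1, ← Real.exp_add, Z, Z, sum_range_succ]
        congr 1
        push_cast
        ring

open Classical in
theorem card_max (d : Bool) (l a c n k : ℕ) (hk : c + n * l ≤ k) {t lam : ℝ} (ht : |t| ≤ 1) :
    (((range (2 ^ k)).filter fun r => ∃ q ≤ n,
      lam ≤ Real.exp (t * Z d l a c q r - q * t ^ 2)).card : ℝ) * lam ≤ 2 ^ k := by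
  have h1 := sum_mod d hk (fun r => W d l a c t lam n r)
    (fun m n' h => W_congr d l a c t lam n h)
  have h2 := sum_W d l a c (lam := lam) ht n
  rw [← nsmul_eq_mul, ← sum_const]
  calc ∑ _r ∈ (range (2 ^ k)).filter (fun r => ∃ q ≤ n,
        lam ≤ Real.exp (t * Z d l a c q r - q * t ^ 2)), lam
      ≤ ∑ r ∈ (range (2 ^ k)).filter (fun r => ∃ q ≤ n,
        lam ≤ Real.exp (t * Z d l a c q r - q * t ^ 2)), W d l a c t lam n r := by
        refine sum_le_sum fun r hr => ?_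
        obtain ⟨q, hq, h3⟩ := (mem_filter.1 hr).2
        refine W_stay d l a c hq ?_
        rcases W_eq d l a c t lam q r with h4 | h4
        · exact h4
        · rw [h4]
          exact h3
    _ ≤ ∑ r ∈ range (2 ^ k), W d l a c t lam n r :=
        sum_le_sum_of_subset_of_nonneg (filter_subset _ _) fun r _ _ =>
          (W_pos d l a c t lam n r).le
    _ = (∑ r ∈ range (2 ^ (c + n * l)), W d l a c t lam n r) * 2 ^ (k - (c + n * l)) := h1
    _ ≤ 2 ^ (c + n * l) * 2 ^ (k - (c + n * l)) := mul_le_mul_of_nonneg_right h2 (by positivity)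
    _ = 2 ^ k := by rw [← pow_add, Nat.add_sub_cancel' hk]

open Classical in
theorem card_max_abs (d : Bool) (l a c n k : ℕ) (hk : c + n * l ≤ k) {t x K : ℝ} (ht0 : 0 ≤ t)
    (ht : t ≤ 1) (hn : (n : ℝ) ≤ K) :
    (((range (2 ^ k)).filter fun r => ∃ q ≤ n, x < |Z d l a c q r|).card : ℝ) ≤
      2 * (2 ^ k * Real.exp (K * t ^ 2 - t * x)) := by
  have h1 := card_max d l a c n k hk (t := t) (lam := Real.exp (t * x - K * t ^ 2))
    (by rwa [abs_of_nonneg ht0])
  have h2 := card_max d l a c n k hk (t := -t) (lam := Real.exp (t * x - K * t ^ 2))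
    (by rwa [abs_neg, abs_of_nonneg ht0])
  have h3 : ((range (2 ^ k)).filter fun r => ∃ q ≤ n, x < |Z d l a c q r|) ⊆
      ((range (2 ^ k)).filter fun r => ∃ q ≤ n, Real.exp (t * x - K * t ^ 2) ≤
        Real.exp (t * Z d l a c q r - q * t ^ 2)) ∪
      ((range (2 ^ k)).filter fun r => ∃ q ≤ n, Real.exp (t * x - K * t ^ 2) ≤
        Real.exp (-t * Z d l a c q r - q * (-t) ^ 2)) := by
    intro r hr
    rw [mem_filter] at hr
    obtain ⟨hr0, q, hq, hx⟩ := hr
    have hqK : (q : ℝ) * t ^ 2 ≤ K * t ^ 2 := by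
      have : (q : ℝ) ≤ n := by exact_mod_cast hq
      exact mul_le_mul_of_nonneg_right (this.trans hn) (sq_nonneg t)
    rw [mem_union, mem_filter, mem_filter]
    rcases lt_abs.1 hx with h | h
    · left
      refine ⟨hr0, q, hq, Real.exp_le_exp.2 ?_⟩
      have := mul_le_mul_of_nonneg_left h.le ht0
      linarith
    · right
      refine ⟨hr0, q, hq, Real.exp_le_exp.2 ?_⟩
      have := mul_le_mul_of_nonneg_left h.le ht0
      rw [neg_sq]
      linarith
  have h4 := (card_le_card h3).trans (card_union_le _ _)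
  have h5 : (((range (2 ^ k)).filter fun r => ∃ q ≤ n, x < |Z d l a c q r|).card : ℝ) ≤
      (((range (2 ^ k)).filter fun r => ∃ q ≤ n, Real.exp (t * x - K * t ^ 2) ≤
        Real.exp (t * Z d l a c q r - q * t ^ 2)).card : ℝ) +
      (((range (2 ^ k)).filter fun r => ∃ q ≤ n, Real.exp (t * x - K * t ^ 2) ≤
        Real.exp (-t * Z d l a c q r - q * (-t) ^ 2)).card : ℝ) := by exact_mod_cast h4
  have h6 : Real.exp (K * t ^ 2 - t * x) = (Real.exp (t * x - K * t ^ 2))⁻¹ := by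
    rw [← Real.exp_neg]
    congr 1
    ring
  rw [h6, mul_left_comm, ← mul_assoc]
  rw [← div_eq_mul_inv, le_div_iff₀ (Real.exp_pos _)]
  have h7 := mul_le_mul_of_nonneg_right h5 (Real.exp_pos (t * x - K * t ^ 2)).le
  rw [add_mul] at h7
  linarith

/-! ### The exceptional classes of one level -/

/-- the numbers for which some arithmetic progression of times of difference `l` has a deviation
larger than `x` -/
def E2 (d : Bool) (l a : ℕ) (x : ℝ) (b : ℕ) : Set ℕ :=
  {m : ℕ | ∃ c < l, ∃ q : ℕ, c + q * l ≤ b / 20 ∧ x < |Z d l a c q m|}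

theorem E2_congr (d : Bool) (l a : ℕ) (x : ℝ) (b : ℕ) {m n : ℕ} (h : m ≡ n [MOD 2 ^ (b / 20)]) :
    m ∈ E2 d l a x b ↔ n ∈ E2 d l a x b := by
  unfold E2
  simp only [Set.mem_ofPred_eq]
  have h1 : ∀ c q : ℕ, c + q * l ≤ b / 20 → Z d l a c q m = Z d l a c q n := fun c q hcq =>
    Z_congr d l a c q (h.of_dvd (pow_dvd_pow 2 hcq))
  constructor
  · rintro ⟨c, hc, q, hq, h2⟩
    exact ⟨c, hc, q, hq, by rwa [← h1 c q hq]⟩
  · rintro ⟨c, hc, q, hq, h2⟩
    exact ⟨c, hc, q, hq, by rwa [h1 c q hq]⟩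

theorem E2_anti (d : Bool) (l a : ℕ) {x y : ℝ} (h : x ≤ y) (b : ℕ) :
    E2 d l a y b ⊆ E2 d l a x b := by
  rintro m ⟨c, hc, q, hq, h2⟩
  exact ⟨c, hc, q, hq, h.trans_lt h2⟩

open Classical in
theorem E2_card (d : Bool) (l a : ℕ) (hl : 1 ≤ l) {x : ℝ} (hx : 0 ≤ x) (b : ℕ) (hb : 1 ≤ b) :
    (((range (2 ^ (b / 20))).filter fun r => r ∈ E2 d l a x b).card : ℝ) ≤
      2 * l * (Real.exp (-(5 * x ^ 2 / b)) + Real.exp (-((b : ℝ) / 20))) * 2 ^ (b / 20) := by
  set k : ℕ := b / 20 with hk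
  have hb0 : (0 : ℝ) < b := by exact_mod_cast hb
  have hkb : (k : ℝ) ≤ b / 20 := Nat.cast_div_le
  -- the exponent
  have hexp : ∃ t : ℝ, 0 ≤ t ∧ t ≤ 1 ∧ Real.exp ((b : ℝ) / 20 * t ^ 2 - t * x) ≤
      Real.exp (-(5 * x ^ 2 / b)) + Real.exp (-((b : ℝ) / 20)) := by
    rcases le_or_gt (10 * x) b with h | h
    · refine ⟨10 * x / b, by positivity, by rwa [div_le_one hb0], ?_⟩
      have e : (b : ℝ) / 20 * (10 * x / b) ^ 2 - 10 * x / b * x = -(5 * x ^ 2 / b) := by
        field_simp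
        ring
      rw [e]
      have := Real.exp_pos (-((b : ℝ) / 20))
      linarith
    · refine ⟨1, zero_le_one, le_rfl, ?_⟩
      have h1 : Real.exp ((b : ℝ) / 20 * 1 ^ 2 - 1 * x) ≤ Real.exp (-((b : ℝ) / 20)) := by
        apply Real.exp_le_exp.2
        linarith
      have := Real.exp_pos (-(5 * x ^ 2 / b))
      linarith
  obtain ⟨t, ht0, ht1, ht⟩ := hexp
  have hsub : ((range (2 ^ k)).filter fun r => r ∈ E2 d l a x b) ⊆
      (range l).biUnion fun c => if c ≤ k then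
        (range (2 ^ k)).filter (fun r => ∃ q ≤ (k - c) / l, x < |Z d l a c q r|) else ∅ := by
    intro r hr
    rw [mem_filter] at hr
    obtain ⟨h0, c, hc, q, hq, h2⟩ := hr
    rw [mem_biUnion]
    refine ⟨c, mem_range.2 hc, ?_⟩
    rw [if_pos (by omega), mem_filter]
    refine ⟨h0, q, ?_, h2⟩
    rw [Nat.le_div_iff_mul_le (by omega)]
    omega
  have h1 : ∀ c ∈ range l, ((if c ≤ k then
        (range (2 ^ k)).filter (fun r => ∃ q ≤ (k - c) / l, x < |Z d l a c q r|) else ∅ :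
          Finset ℕ).card : ℝ) ≤
      2 * (2 ^ k * (Real.exp (-(5 * x ^ 2 / b)) + Real.exp (-((b : ℝ) / 20)))) := by
    intro c _
    split_ifs with h
    · have h2 : c + (k - c) / l * l ≤ k := by
        have := Nat.div_mul_le_self (k - c) l
        omega
      have h3 : (((k - c) / l : ℕ) : ℝ) ≤ (b : ℝ) / 20 := by
        have h4 : (k - c) / l ≤ k := (Nat.div_le_self _ _).trans (Nat.sub_le _ _)
        have h5 : (((k - c) / l : ℕ) : ℝ) ≤ k := by exact_mod_cast h4
        linarith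
      refine (card_max_abs d l a c _ k h2 ht0 ht1 h3).trans ?_
      refine mul_le_mul_of_nonneg_left ?_ (by norm_num)
      exact mul_le_mul_of_nonneg_left ht (by positivity)
    · rw [card_empty, Nat.cast_zero]
      positivity
  have h2 := (card_le_card hsub).trans card_biUnion_le
  have h3 : (((range (2 ^ k)).filter fun r => r ∈ E2 d l a x b).card : ℝ) ≤
      ∑ c ∈ range l, ((if c ≤ k then
        (range (2 ^ k)).filter (fun r => ∃ q ≤ (k - c) / l, x < |Z d l a c q r|) else ∅ :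
          Finset ℕ).card : ℝ) := by exact_mod_cast h2
  refine h3.trans ((sum_le_sum h1).trans (le_of_eq ?_))
  rw [sum_const, card_range, nsmul_eq_mul]
  ring

/-! ### The levels -/

/-- the levels -/
def lev (u : ℕ) : ℕ → ℕ
  | 0 => u + 1
  | (j + 1) => lev u j - lev u j / 200

theorem lev_succ_le (u j : ℕ) : lev u (j + 1) ≤ lev u j := Nat.sub_le _ _

theorem lev_le_self (u j : ℕ) : lev u j ≤ u + 1 := by
  induction j with
  | zero => exact le_rfl
  | succ j ih => exact (lev_succ_le u j).trans ih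

theorem lev_add_le (u j : ℕ) (h : 200 ≤ lev u j) : lev u j + j ≤ u + 1 := by
  induction j with
  | zero => exact le_rfl
  | succ j ih =>
    have h1 := ih (h.trans (lev_succ_le u j))
    have h2 : lev u (j + 1) = lev u j - lev u j / 200 := rfl
    have h3 : 200 ≤ lev u j := h.trans (lev_succ_le u j)
    omega

theorem lev_le_pow (u j : ℕ) (h : 400 ≤ lev u j) :
    (lev u j : ℝ) ≤ (399 / 400 : ℝ) ^ j * (u + 1) := by
  induction j with
  | zero => simp [lev]
  | succ j ih =>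
    have h3 : 400 ≤ lev u j := h.trans (lev_succ_le u j)
    have h1 := ih h3
    have h2 : lev u (j + 1) = lev u j - lev u j / 200 := rfl
    have h4 : 400 * lev u (j + 1) ≤ 399 * lev u j := by omega
    have h5 : (400 : ℝ) * (lev u (j + 1) : ℝ) ≤ 399 * (lev u j : ℝ) := by exact_mod_cast h4
    rw [pow_succ']
    have h6 : (399 / 400 : ℝ) * (lev u j : ℝ) ≤ 399 / 400 * ((399 / 400 : ℝ) ^ j * (u + 1)) :=
      mul_le_mul_of_nonneg_left h1 (by norm_num)
    linarith

/-- the ratio of the thresholds -/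
noncomputable def rho : ℝ := 999 / 1000

theorem rho_pos : 0 < rho := by norm_num [rho]

theorem rho_sq (j : ℕ) : (1 + (j : ℝ) / 2000) * (399 / 400 : ℝ) ^ j ≤ (rho ^ j) ^ 2 := by
  have h1 : (1 + (j : ℝ) / 2000) ≤ (1 + 1 / 2000 : ℝ) ^ j := by
    have := one_add_mul_le_pow (a := (1 / 2000 : ℝ)) (by norm_num) j
    calc (1 + (j : ℝ) / 2000) = 1 + (j : ℝ) * (1 / 2000) := by ring
      _ ≤ _ := this
  calc (1 + (j : ℝ) / 2000) * (399 / 400 : ℝ) ^ j ≤ (1 + 1 / 2000 : ℝ) ^ j * (399 / 400 : ℝ) ^ j :=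
        mul_le_mul_of_nonneg_right h1 (by positivity)
    _ = ((1 + 1 / 2000) * (399 / 400) : ℝ) ^ j := (mul_pow _ _ _).symm
    _ ≤ (rho ^ 2) ^ j := pow_le_pow_left₀ (by norm_num) (by norm_num [rho]) j
    _ = (rho ^ j) ^ 2 := by rw [← pow_mul, ← pow_mul, mul_comm]

/-- the exponent of level `j` -/
theorem exponent (u j : ℕ) (hu : 1 ≤ u) (R : ℝ) (h : 400 ≤ lev u j) :
    R ^ 2 / 2 * (1 + (j : ℝ) / 2000) ≤ (R * √u * rho ^ j) ^ 2 / lev u j := by
  have h1 := lev_le_pow u j h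
  have h2 := rho_sq j
  have hl0 : (0 : ℝ) < lev u j := by exact_mod_cast (by omega : 0 < lev u j)
  have hu0 : (1 : ℝ) ≤ u := by exact_mod_cast hu
  rw [le_div_iff₀ hl0, mul_pow, mul_pow, Real.sq_sqrt (by linarith)]
  have hR : 0 ≤ R ^ 2 := sq_nonneg R
  have hj : (0 : ℝ) ≤ 1 + (j : ℝ) / 2000 := by positivity
  calc R ^ 2 / 2 * (1 + (j : ℝ) / 2000) * lev u j
      ≤ R ^ 2 / 2 * (1 + (j : ℝ) / 2000) * ((399 / 400 : ℝ) ^ j * (u + 1)) :=
        mul_le_mul_of_nonneg_left h1 (by positivity)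
    _ = R ^ 2 * ((u + 1) / 2) * ((1 + (j : ℝ) / 2000) * (399 / 400 : ℝ) ^ j) := by ring
    _ ≤ R ^ 2 * ((u + 1) / 2) * (rho ^ j) ^ 2 := mul_le_mul_of_nonneg_left h2 (by positivity)
    _ ≤ R ^ 2 * u * (rho ^ j) ^ 2 := by
        refine mul_le_mul_of_nonneg_right ?_ (sq_nonneg _)
        refine mul_le_mul_of_nonneg_left ?_ hR
        linarith

/-! ### The density of the good numbers -/

/-- a family of exceptional classes with Gaussian tails -/
structure Cls (F : ℝ → ℕ → Set ℕ) (Q κ : ℝ) : Prop where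
  per : ∀ (x : ℝ) (b m n : ℕ), m ≡ n [MOD 2 ^ (b / 20)] → (m ∈ F x b ↔ n ∈ F x b)
  anti : ∀ (x y : ℝ) (b : ℕ), x ≤ y → F y b ⊆ F x b
  card : ∀ (x : ℝ) (b : ℕ), 0 ≤ x → 1 ≤ b → ∃ c : Finset ℕ,
    (∀ r, r ∈ c ↔ r ∈ range (2 ^ (b / 20)) ∧ r ∈ F x b) ∧
    (c.card : ℝ) ≤ Q * (Real.exp (-(κ * x ^ 2 / b)) + Real.exp (-((b : ℝ) / 20))) * 2 ^ (b / 20)

theorem E2_cls (d : Bool) (l a : ℕ) (hl : 1 ≤ l) : Cls (E2 d l a) (2 * l) 5 where
  per x b m n h := E2_congr d l a x b h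
  anti x y b h := E2_anti d l a h b
  card x b hx hb := by
    classical
    refine ⟨(range (2 ^ (b / 20))).filter fun r => r ∈ E2 d l a x b, fun r => mem_filter, ?_⟩
    convert E2_card d l a hl hx b hb using 2

open Classical in
theorem gd_nat (B : Set ℕ) (u : ℕ) :
    (((Ico (2 ^ u) (2 ^ (u + 1))).filter fun n => n ∈ B).card : ℝ) = Gd B (u : ℝ) * 2 ^ u := by
  unfold Gd
  have h1 : {N : ℕ | N ∈ B ∧ (2 : ℝ) ^ (u : ℝ) ≤ N ∧ (N : ℝ) < 2 ^ ((u : ℝ) + 1)} =
      (((Ico (2 ^ u) (2 ^ (u + 1))).filter fun n => n ∈ B : Finset ℕ) : Set ℕ) := by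
    ext N
    have e1 : (2 : ℝ) ^ (u : ℝ) = ((2 ^ u : ℕ) : ℝ) := by
      rw [Real.rpow_natCast]
      push_cast
      rfl
    have e2 : (2 : ℝ) ^ ((u : ℝ) + 1) = ((2 ^ (u + 1) : ℕ) : ℝ) := by
      rw [show (u : ℝ) + 1 = ((u + 1 : ℕ) : ℝ) by push_cast; ring, Real.rpow_natCast]
      push_cast
      rfl
    rw [Set.mem_ofPred_eq, mem_coe, mem_filter, mem_Ico, e1, e2, Nat.cast_le, Nat.cast_lt]
    tauto
  rw [h1, Set.ncard_coe_finset, Real.rpow_natCast, div_mul_cancel₀]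
  positivity

theorem hb_mono (d : Bool) (a : ℕ) {E E' : Set ℕ} (h : E ⊆ E') : HB d a E ⊆ HB d a E' := by
  rintro n ⟨i, h1, h2, h3⟩
  exact ⟨i, h1, h2, h h3⟩

open Classical in
theorem level_count {C : ℝ} {a₀ : ℕ} (hC : 0 < C)
    (hB : ∀ (d : Bool) (a k : ℕ) (E : Set ℕ) (p : ℝ), a₀ ≤ a →
      k ≤ a / 20 → (∀ m n : ℕ, m ≡ n [MOD 2 ^ k] → (m ∈ E ↔ n ∈ E)) →
      (((range (2 ^ k)).filter fun r => r ∈ E).card : ℝ) ≤ p * 2 ^ k →
      ∀ u : ℝ, (a : ℝ) ≤ u → Gd (HB d a E) u ≤ C * (p + 1 / (a : ℝ) ^ 3))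
    (d : Bool) (u j : ℕ) (hu : 200 ≤ u) (ha : a₀ ≤ lev u j) (hl : 1 ≤ lev u j) (E : Set ℕ) (p : ℝ)
    (hp : 0 ≤ p) (hper : ∀ m n : ℕ, m ≡ n [MOD 2 ^ (lev u j / 20)] → (m ∈ E ↔ n ∈ E))
    (hcard : (((range (2 ^ (lev u j / 20))).filter fun r => r ∈ E).card : ℝ) ≤
      p * 2 ^ (lev u j / 20)) :
    (((Ico (2 ^ u) (2 ^ (u + 1))).filter fun n => n ∈ HB d (lev u j) E).card : ℝ) ≤
      (C + 2) * (p + 1 / (lev u j : ℝ) ^ 3) * 2 ^ u := by
  have hl0 : (0 : ℝ) < lev u j := by exact_mod_cast hl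
  have h0 : 0 ≤ 1 / (lev u j : ℝ) ^ 3 := by positivity
  have h2u : (0 : ℝ) < 2 ^ u := by positivity
  rcases Nat.eq_zero_or_pos j with hj | hj
  · subst hj
    have hk : lev u 0 / 20 ≤ u + 1 := by
      show (u + 1) / 20 ≤ u + 1
      exact Nat.div_le_self _ _
    have h1 : ((Ico (2 ^ u) (2 ^ (u + 1))).filter fun n => n ∈ HB d (lev u 0) E) ⊆
        (range (2 ^ (u + 1))).filter fun n => n ∈ E := by
      intro n hn
      rw [mem_filter, mem_Ico] at hn
      obtain ⟨⟨_, h2⟩, i, h3, h4, h5⟩ := hn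
      rw [mem_filter, mem_range]
      rcases Nat.eq_zero_or_pos i with hi | hi
      · subst hi
        exact ⟨h2, h5⟩
      · have h6 := h4 0 hi
        simp only [lev, Function.iterate_zero, id_eq] at h6
        omega
    have h2 := sum_mod d hk (fun r => if r ∈ E then (1 : ℝ) else 0)
      (fun m n h => by simp only [hper m n h])
    rw [sum_boole, sum_boole] at h2
    have h3 : (((Ico (2 ^ u) (2 ^ (u + 1))).filter fun n => n ∈ HB d (lev u 0) E).card : ℝ) ≤
        (((range (2 ^ (u + 1))).filter fun n => n ∈ E).card : ℝ) := by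
      exact_mod_cast card_le_card h1
    refine h3.trans ?_
    rw [h2]
    calc (((range (2 ^ (lev u 0 / 20))).filter fun r => r ∈ E).card : ℝ) *
          2 ^ (u + 1 - lev u 0 / 20)
        ≤ p * 2 ^ (lev u 0 / 20) * 2 ^ (u + 1 - lev u 0 / 20) :=
          mul_le_mul_of_nonneg_right hcard (by positivity)
      _ = p * 2 ^ (u + 1) := by
          rw [mul_assoc, ← pow_add, Nat.add_sub_cancel' hk]
      _ = 2 * p * 2 ^ u := by rw [pow_succ]; ring
      _ ≤ (C + 2) * (p + 1 / (lev u 0 : ℝ) ^ 3) * 2 ^ u := by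
          refine mul_le_mul_of_nonneg_right ?_ h2u.le
          nlinarith [mul_nonneg hC.le hp, mul_nonneg hC.le h0]
  · have h1 : lev u j ≤ u := by
      have h2 : lev u j ≤ lev u 1 := by
        obtain ⟨i, rfl⟩ : ∃ i, j = i + 1 := ⟨j - 1, by omega⟩
        clear * -
        induction i with
        | zero => exact le_rfl
        | succ i ih => exact (lev_succ_le u (i + 1)).trans ih
      have h3 : lev u 1 = (u + 1) - (u + 1) / 200 := rfl
      omega
    have h2 := hB d (lev u j) (lev u j / 20) E p ha le_rfl hper hcard u (by exact_mod_cast h1)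
    rw [gd_nat]
    refine mul_le_mul_of_nonneg_right (h2.trans ?_) h2u.le
    refine mul_le_mul_of_nonneg_right (by linarith) (by linarith)

theorem exists_R {κ δ : ℝ} (hκ : 0 < κ) (hδ : 0 < δ) (hδ1 : δ ≤ 1 / 2) :
    ∃ R : ℝ, 0 ≤ R ∧ ∀ N : ℕ, ∑ j ∈ range N, Real.exp (-(κ * (R ^ 2 / 2 * (1 + (j : ℝ) / 2000)))) ≤
      2 * δ := by
  have hy : 0 ≤ -Real.log δ := by
    have := Real.log_nonpos hδ.le (by linarith)
    linarith
  refine ⟨√(4000 * (-Real.log δ) / κ), Real.sqrt_nonneg _, fun N => ?_⟩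
  rw [Real.sq_sqrt (by positivity)]
  have h1 : ∀ j ∈ range N, Real.exp (-(κ * (4000 * (-Real.log δ) / κ / 2 *
      (1 + (j : ℝ) / 2000)))) ≤ δ * (1 / 2) ^ j := by
    intro j _
    have e : -(κ * (4000 * (-Real.log δ) / κ / 2 * (1 + (j : ℝ) / 2000))) =
        2000 * Real.log δ + j * Real.log δ := by
      field_simp
      ring
    rw [e, Real.exp_add]
    refine mul_le_mul ?_ ?_ (Real.exp_pos _).le hδ.le
    · calc Real.exp (2000 * Real.log δ) ≤ Real.exp (Real.log δ) := by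
            apply Real.exp_le_exp.2
            linarith
        _ = δ := Real.exp_log hδ
    · rw [mul_comm, Real.exp_mul, Real.exp_log hδ, Real.rpow_natCast]
      exact pow_le_pow_left₀ hδ.le hδ1 j
  refine (sum_le_sum h1).trans ?_
  rw [← mul_sum, mul_comm]
  refine mul_le_mul_of_nonneg_right ?_ hδ.le
  have h2 : ∑ j ∈ range N, (1 / 2 : ℝ) ^ j ≤ ∑' j : ℕ, (1 / 2 : ℝ) ^ j :=
    summable_geometric_two.sum_le_tsum _ fun _ _ => by positivity
  rw [tsum_geometric_two] at h2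
  exact h2

theorem levels_dens (hBCS : BCSStatement) (d : Bool) {F : ℝ → ℕ → Set ℕ} {Q κ : ℝ} (hQ : 0 ≤ Q)
    (hκ : 0 < κ) (hF : Cls F Q κ) (ψ : ℕ → ℝ) (hψ : Tendsto ψ atTop atTop) :
    HasDensN {n : ℕ | ∀ j : ℕ, √(Nat.log 2 n : ℝ) ≤ lev (Nat.log 2 n) j →
      n ∉ HB d (lev (Nat.log 2 n) j)
        (F (ψ n * √(Nat.log 2 n : ℝ) * rho ^ j) (lev (Nat.log 2 n) j))} 1 := by
  classical
  refine H17.dens_one _ fun ε hε => ?_
  obtain ⟨C, a₀, hC, hB⟩ := hBCS 3
  set δ : ℝ := min (1 / 2) (ε / (4 * (C + 2) * (Q + 1))) with hδdef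
  have hδ : 0 < δ := lt_min (by norm_num) (by positivity)
  have hδ2 : (C + 2) * (Q * (2 * δ)) ≤ ε / 2 := by
    have h1 := min_le_right (1 / 2) (ε / (4 * (C + 2) * (Q + 1)))
    rw [← hδdef, le_div_iff₀ (by positivity)] at h1
    nlinarith [mul_pos (by linarith : (0 : ℝ) < C + 2) hδ]
  obtain ⟨R, hR0, hR⟩ := exists_R hκ hδ (min_le_left _ _)
  obtain ⟨n₀, hn₀⟩ := eventually_atTop.1 (hψ.eventually_ge_atTop R)
  obtain ⟨v₀, hv₀⟩ := exists_nat_gt (max (max (a₀ : ℝ) 400)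
    (6 * (C + 2) * (48000 * Q + 1) / ε))
  refine ⟨max (v₀ ^ 2) n₀, fun u hu => ?_⟩
  have hu1 : v₀ ^ 2 ≤ u := (le_max_left _ _).trans hu
  have hu2 : n₀ ≤ u := (le_max_right _ _).trans hu
  have hv400 : (400 : ℝ) < v₀ := (le_max_right _ _).trans_lt ((le_max_left _ _).trans_lt hv₀)
  have hva : (a₀ : ℝ) < v₀ := (le_max_left _ _).trans_lt ((le_max_left _ _).trans_lt hv₀)
  have hvε : 6 * (C + 2) * (48000 * Q + 1) / ε < v₀ := (le_max_right _ _).trans_lt hv₀
  have hsv : (v₀ : ℝ) ≤ √(u : ℝ) := by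
    apply Real.le_sqrt_of_sq_le
    exact_mod_cast hu1
  have hs0 : 0 < √(u : ℝ) := by linarith
  have hsu : √(u : ℝ) ^ 2 = u := Real.sq_sqrt (Nat.cast_nonneg _)
  have hu400 : (400 : ℝ) ≤ u := by nlinarith
  have hu400' : 400 ≤ u := by exact_mod_cast hu400
  have h2u : (0 : ℝ) < 2 ^ u := by positivity
  -- one level
  have hlev : ∀ j : ℕ, √(u : ℝ) ≤ lev u j →
      (((Ico (2 ^ u) (2 ^ (u + 1))).filter fun n => n ∈ HB d (lev u j)
        (F (R * √(u : ℝ) * rho ^ j) (lev u j))).card : ℝ) ≤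
      (C + 2) * (Q * Real.exp (-(κ * (R ^ 2 / 2 * (1 + (j : ℝ) / 2000)))) +
        (48000 * Q + 1) / √(u : ℝ) ^ 3) * 2 ^ u := by
    intro j hj
    have hl400 : 400 ≤ lev u j := by
      have : (400 : ℝ) ≤ lev u j := by linarith
      exact_mod_cast this
    have hla : a₀ ≤ lev u j := by
      have : (a₀ : ℝ) ≤ lev u j := by linarith
      exact_mod_cast this
    have hl0 : (0 : ℝ) < lev u j := by linarith
    have hx0 : 0 ≤ R * √(u : ℝ) * rho ^ j := by
      have := rho_pos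
      positivity
    obtain ⟨c, hc1, hc2⟩ := hF.card (R * √(u : ℝ) * rho ^ j) (lev u j) hx0 (by omega)
    have hc3 : ((range (2 ^ (lev u j / 20))).filter fun r =>
        r ∈ F (R * √(u : ℝ) * rho ^ j) (lev u j)) = c := by
      ext r
      rw [mem_filter, hc1]
    have h1 := level_count hC hB d u j (by omega) hla (by omega)
      (F (R * √(u : ℝ) * rho ^ j) (lev u j))
      (Q * (Real.exp (-(κ * (R * √(u : ℝ) * rho ^ j) ^ 2 / lev u j)) +
        Real.exp (-((lev u j : ℝ) / 20)))) (by positivity) (hF.per _ _)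
      (by rw [hc3]; exact hc2)
    refine h1.trans ?_
    refine mul_le_mul_of_nonneg_right ?_ h2u.le
    refine mul_le_mul_of_nonneg_left ?_ (by linarith)
    have h2 : Real.exp (-(κ * (R * √(u : ℝ) * rho ^ j) ^ 2 / lev u j)) ≤
        Real.exp (-(κ * (R ^ 2 / 2 * (1 + (j : ℝ) / 2000)))) := by
      apply Real.exp_le_exp.2
      have h3 := exponent u j (by omega) R hl400
      have h4 := mul_le_mul_of_nonneg_left h3 hκ.le
      rw [← mul_div_assoc] at h4
      linarith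
    have h3 : Real.exp (-((lev u j : ℝ) / 20)) ≤ 48000 / √(u : ℝ) ^ 3 := by
      have h4 := H62.exp_bound 3 ((lev u j : ℝ) / 20) (by positivity)
      refine h4.trans ?_
      have h5 : (((3 : ℕ).factorial : ℕ) : ℝ) / ((lev u j : ℝ) / 20) ^ 3 =
          48000 / (lev u j : ℝ) ^ 3 := by
        rw [show (((3 : ℕ).factorial : ℕ) : ℝ) = 6 by norm_num [Nat.factorial]]
        field_simp
        ring
      rw [h5]
      exact div_le_div_of_nonneg_left (by norm_num) (by positivity)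
        (pow_le_pow_left₀ hs0.le hj 3)
    have h4 : 1 / (lev u j : ℝ) ^ 3 ≤ 1 / √(u : ℝ) ^ 3 :=
      div_le_div_of_nonneg_left (by norm_num) (by positivity) (pow_le_pow_left₀ hs0.le hj 3)
    have h5 := mul_le_mul_of_nonneg_left h2 hQ
    have h6 := mul_le_mul_of_nonneg_left h3 hQ
    have h7 : (48000 * Q + 1) / √(u : ℝ) ^ 3 = Q * (48000 / √(u : ℝ) ^ 3) + 1 / √(u : ℝ) ^ 3 := by
      ring
    rw [h7, mul_add]
    linarith
  -- the union
  have hsub : ((Ico (2 ^ u) (2 ^ (u + 1))).filter fun N => N ∉ {n : ℕ | ∀ j : ℕ,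
      √(Nat.log 2 n : ℝ) ≤ lev (Nat.log 2 n) j → n ∉ HB d (lev (Nat.log 2 n) j)
        (F (ψ n * √(Nat.log 2 n : ℝ) * rho ^ j) (lev (Nat.log 2 n) j))}) ⊆
      (range (u + 2)).biUnion fun j => if √(u : ℝ) ≤ lev u j then
        (Ico (2 ^ u) (2 ^ (u + 1))).filter fun n => n ∈ HB d (lev u j)
          (F (R * √(u : ℝ) * rho ^ j) (lev u j)) else ∅ := by
    intro n hn
    rw [mem_filter] at hn
    obtain ⟨hn1, hn2⟩ := hn
    have hn3 := mem_Ico.1 hn1
    have hlog : Nat.log 2 n = u := by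
      rw [Nat.log_eq_iff (Or.inr ⟨by norm_num, by
        have : 0 < 2 ^ u := by positivity
        omega⟩)]
      exact hn3
    rw [Set.mem_ofPred_eq, hlog] at hn2
    push Not at hn2
    obtain ⟨j, hj1, hj2⟩ := hn2
    have hl400 : 400 ≤ lev u j := by
      have : (400 : ℝ) ≤ lev u j := by linarith
      exact_mod_cast this
    have hju := lev_add_le u j (by omega)
    rw [mem_biUnion]
    refine ⟨j, mem_range.2 (by omega), ?_⟩
    rw [if_pos hj1, mem_filter]
    refine ⟨hn1, hb_mono d _ (hF.anti _ _ _ ?_) hj2⟩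
    have hRn : R ≤ ψ n := hn₀ n (hu2.trans (by
      have := Nat.lt_two_pow_self (n := u)
      omega))
    have := rho_pos
    gcongr
  have h1 := (card_le_card hsub).trans card_biUnion_le
  have h2 : (((Ico (2 ^ u) (2 ^ (u + 1))).filter fun N => N ∉ {n : ℕ | ∀ j : ℕ,
      √(Nat.log 2 n : ℝ) ≤ lev (Nat.log 2 n) j → n ∉ HB d (lev (Nat.log 2 n) j)
        (F (ψ n * √(Nat.log 2 n : ℝ) * rho ^ j) (lev (Nat.log 2 n) j))}).card : ℝ) ≤
      ∑ j ∈ range (u + 2), (((if √(u : ℝ) ≤ lev u j then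
        (Ico (2 ^ u) (2 ^ (u + 1))).filter fun n => n ∈ HB d (lev u j)
          (F (R * √(u : ℝ) * rho ^ j) (lev u j)) else ∅ : Finset ℕ)).card : ℝ) := by
    exact_mod_cast h1
  have h3 : ∀ j ∈ range (u + 2), (((if √(u : ℝ) ≤ lev u j then
        (Ico (2 ^ u) (2 ^ (u + 1))).filter fun n => n ∈ HB d (lev u j)
          (F (R * √(u : ℝ) * rho ^ j) (lev u j)) else ∅ : Finset ℕ)).card : ℝ) ≤
      (C + 2) * (Q * Real.exp (-(κ * (R ^ 2 / 2 * (1 + (j : ℝ) / 2000)))) +
        (48000 * Q + 1) / √(u : ℝ) ^ 3) * 2 ^ u := by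
    intro j _
    split_ifs with h
    · exact hlev j h
    · rw [card_empty, Nat.cast_zero]
      positivity
  have h4 : ∑ j ∈ range (u + 2), (C + 2) * (Q * Real.exp (-(κ * (R ^ 2 / 2 *
        (1 + (j : ℝ) / 2000)))) + (48000 * Q + 1) / √(u : ℝ) ^ 3) * 2 ^ u =
      (C + 2) * (Q * ∑ j ∈ range (u + 2), Real.exp (-(κ * (R ^ 2 / 2 * (1 + (j : ℝ) / 2000)))) +
        ((u : ℝ) + 2) * ((48000 * Q + 1) / √(u : ℝ) ^ 3)) * 2 ^ u := by
    rw [← sum_mul, ← mul_sum, sum_add_distrib, ← mul_sum, sum_const, card_range, nsmul_eq_mul]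
    push_cast
    ring
  have h5 : ((u : ℝ) + 2) * ((48000 * Q + 1) / √(u : ℝ) ^ 3) ≤ 3 * (48000 * Q + 1) / √(u : ℝ) := by
    rw [mul_div_assoc', div_le_div_iff₀ (by positivity) hs0]
    have h6 : (u : ℝ) + 2 ≤ 3 * √(u : ℝ) ^ 2 := by
      rw [hsu]
      linarith
    have h7 : 0 ≤ (48000 * Q + 1) * √(u : ℝ) := by positivity
    nlinarith
  have h6 : (C + 2) * (3 * (48000 * Q + 1) / √(u : ℝ)) ≤ ε / 2 := by
    rw [mul_div_assoc', div_le_iff₀ hs0]
    have h7 : 6 * (C + 2) * (48000 * Q + 1) < v₀ * ε := by rwa [div_lt_iff₀ hε] at hvε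
    have h8 : (v₀ : ℝ) * ε ≤ √(u : ℝ) * ε := mul_le_mul_of_nonneg_right hsv hε.le
    linarith
  refine h2.trans ((sum_le_sum h3).trans ?_)
  rw [h4]
  refine mul_le_mul_of_nonneg_right ?_ h2u.le
  have h7 : (C + 2) * (Q * ∑ j ∈ range (u + 2),
      Real.exp (-(κ * (R ^ 2 / 2 * (1 + (j : ℝ) / 2000))))) ≤ (C + 2) * (Q * (2 * δ)) := by
    refine mul_le_mul_of_nonneg_left ?_ (by linarith)
    exact mul_le_mul_of_nonneg_left (hR _) hQ
  have h8 := mul_le_mul_of_nonneg_left h5 (by linarith : (0 : ℝ) ≤ C + 2)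
  rw [mul_add]
  linarith

end Pool.Agent.Lib.MP_edb5be_nt.TS.H67
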